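import Mathlib

namespace Pool.Agent.Lib.MP_c2693b_gt

section

variable {M X : Type} [TopologicalSpace M] [TopologicalSpace X]

/-- the path `γ` has a lift from `x` to `y` -/
def Lifts (q : X → M) {a b : M} (γ : Path a b) (x y : X) : Prop :=
  ∃ Γ : Path x y, ∀ t, q (Γ t) = γ t

variable {q : X → M} {a b c : M}

theorem Lifts.ex (cov : IsCoveringMap q) (γ : Path a b) {x : X} (hx : q x = a) :
    ∃ y, Lifts q γ x y := by
  have h0 : γ.toContinuousMap 0 = q x := γ.source.trans hx.symm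
  exact ⟨_, ⟨cov.liftPath γ.toContinuousMap x h0, cov.liftPath_zero .., rfl⟩,
    fun t => congrFun (cov.liftPath_lifts γ.toContinuousMap x h0) t⟩

theorem Lifts.start {γ : Path a b} {x y : X} (h : Lifts q γ x y) : q x = a := by
  obtain ⟨Γ, h⟩ := h
  simpa using h 0

theorem Lifts.stop {γ : Path a b} {x y : X} (h : Lifts q γ x y) : q y = b := by
  obtain ⟨Γ, h⟩ := h
  simpa using h 1

theorem Lifts.uniq (cov : IsCoveringMap q) {γ γ' : Path a b} (hh : γ.Homotopic γ') {x y y' : X}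
    (h : Lifts q γ x y) (h' : Lifts q γ' x y') : y = y' := by
  have h0 : γ.toContinuousMap 0 = q x := γ.source.trans h.start.symm
  have h1 : γ'.toContinuousMap 0 = q x := γ'.source.trans h.start.symm
  obtain ⟨Γ, h⟩ := h
  obtain ⟨Γ', h'⟩ := h'
  have e : Γ.toContinuousMap = cov.liftPath γ.toContinuousMap x h0 :=
    (cov.eq_liftPath_iff' _).2 ⟨funext h, Γ.source⟩
  have e' : Γ'.toContinuousMap = cov.liftPath γ'.toContinuousMap x h1 :=
    (cov.eq_liftPath_iff' _).2 ⟨funext h', Γ'.source⟩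
  have := cov.liftPath_apply_one_eq_of_homotopicRel hh x h0 h1
  rw [← e, ← e'] at this
  exact Γ.target.symm.trans (this.trans Γ'.target)

theorem Lifts.trans {γ : Path a b} {γ' : Path b c} {x y z : X} (h : Lifts q γ x y)
    (h' : Lifts q γ' y z) : Lifts q (γ.trans γ') x z := by
  obtain ⟨Γ, h⟩ := h
  obtain ⟨Γ', h'⟩ := h'
  refine ⟨Γ.trans Γ', fun t => ?_⟩
  rw [Path.trans_apply, Path.trans_apply]
  split_ifs
  · exact h _
  · exact h' _

theorem Lifts.symm {γ : Path a b} {x y : X} (h : Lifts q γ x y) : Lifts q γ.symm y x := by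
  obtain ⟨Γ, h⟩ := h
  exact ⟨Γ.symm, fun t => h _⟩

theorem Lifts.deck {γ : Path a b} {x y : X} (h : Lifts q γ x y) {g : X → X} (hg : Continuous g)
    (hq : q ∘ g = q) : Lifts q γ (g x) (g y) := by
  obtain ⟨Γ, h⟩ := h
  exact ⟨Γ.map hg, fun t => (congrFun hq _).trans (h t)⟩

theorem Lifts.homotopic [SimplyConnectedSpace X] (hq : Continuous q) {γ γ' : Path a b} {x y : X}
    (h : Lifts q γ x y) (h' : Lifts q γ' x y) : γ.Homotopic γ' := by
  have ha := h.start
  have hb := h.stop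
  subst ha hb
  obtain ⟨Γ, h⟩ := h
  obtain ⟨Γ', h'⟩ := h'
  have e : γ = Γ.map hq := by ext t; exact (h t).symm
  have e' : γ' = Γ'.map hq := by ext t; exact (h' t).symm
  rw [e, e']
  exact (SimplyConnectedSpace.paths_homotopic Γ Γ').map ⟨q, hq⟩

end

theorem four_core {M X : Type} [TopologicalSpace M] [MetricSpace X] [SimplyConnectedSpace X]
    {q : X → M} (cov : IsCoveringMap q) (surj : Function.Surjective q)
    (deck : ∀ a b, q a = q b → ∃ g : X ≃ᵢ X, q ∘ g = q ∧ g a = b)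
    (free : ∀ g : X ≃ᵢ X, q ∘ g = q → ∀ x, g x = x → g = 1)
    {V : Type} (A : SimpleGraph V)
    (hw : ∀ g : V → V → X ≃ᵢ X, (∀ u v, q ∘ g u v = q) →
      (∀ u v, A.Adj u v → g u v * g v u = 1) →
      (∀ u v w, A.Adj u v → A.Adj v w → A.Adj u w → g u v * g v w = g u w) →
      ∃ F : V → X, ∀ u v, A.Adj u v → g u v (F v) = F u)
    (P : V → M) (γ : ∀ u v, A.Adj u v → Path (P u) (P v))
    (hinv : ∀ u v (h : A.Adj u v), (γ v u h.symm).Homotopic (γ u v h).symm)
    (htri : ∀ u v w (h1 : A.Adj u v) (h2 : A.Adj v w) (h3 : A.Adj u w),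
      ((γ u v h1).trans (γ v w h2)).Homotopic (γ u w h3))
    {a b c d : V} (h1 : A.Adj a b) (h2 : A.Adj b c) (h3 : A.Adj a d) (h4 : A.Adj d c) :
    ((γ a b h1).trans (γ b c h2)).Homotopic ((γ a d h3).trans (γ d c h4)) := by
  choose L hL using fun u => surj (P u)
  have ex : ∀ u v, ∃ g : X ≃ᵢ X, q ∘ g = q ∧ ∀ h : A.Adj u v, Lifts q (γ u v h) (L u) (g (L v)) := by
    intro u v
    by_cases h : A.Adj u v
    · obtain ⟨y, hy⟩ := Lifts.ex cov (γ u v h) (hL u)
      obtain ⟨g, hg, e⟩ := deck (L v) y ((hL v).trans hy.stop.symm)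
      exact ⟨g, hg, fun _ => e ▸ hy⟩
    · exact ⟨1, rfl, fun h' => absurd h' h⟩
  choose g hg hl using ex
  have hmul : ∀ k k' : X ≃ᵢ X, q ∘ k = q → q ∘ k' = q → q ∘ (k * k' : X ≃ᵢ X) = q :=
    fun k k' e e' => funext fun x => (congrFun e (k' x)).trans (congrFun e' x)
  have same : ∀ k k' : X ≃ᵢ X, q ∘ k = q → q ∘ k' = q → ∀ x, k x = k' x → k = k' := by
    intro k k' e e' x hx
    have hi : q ∘ (k'⁻¹ : X ≃ᵢ X) = q := funext fun z => by
      have := congrFun e' (k'⁻¹ z)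
      simpa using this.symm
    have := free (k'⁻¹ * k) (hmul _ _ hi e) x (by simp [hx])
    exact (inv_mul_eq_one.1 this).symm
  have two : ∀ u v w (e1 : A.Adj u v) (e2 : A.Adj v w),
      Lifts q ((γ u v e1).trans (γ v w e2)) (L u) ((g u v * g v w) (L w)) :=
    fun u v w e1 e2 => (hl u v e1).trans ((hl v w e2).deck (g u v).continuous (hg u v))
  obtain ⟨F, hF⟩ := hw g hg
    (fun u v e => by
      refine same _ _ (hmul _ _ (hg u v) (hg v u)) rfl (L u) ?_
      exact Lifts.uniq cov (hinv u v e) ((hl v u e.symm).deck (g u v).continuous (hg u v))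
        (hl u v e).symm)
    (fun u v w e1 e2 e3 => by
      refine same _ _ (hmul _ _ (hg u v) (hg v w)) (hg u w) (L w) ?_
      exact Lifts.uniq cov (htri u v w e1 e2 e3) (two u v w e1 e2) (hl u w e3))
  have e : g a b * g b c = g a d * g d c := by
    refine same _ _ (hmul _ _ (hg _ _) (hg _ _)) (hmul _ _ (hg _ _) (hg _ _)) (F c) ?_
    simp only [IsometryEquiv.mul_apply, hF _ _ h1, hF _ _ h2, hF _ _ h3, hF _ _ h4]
  exact Lifts.homotopic cov.continuous (two a b c h1 h2) (e ▸ two a d c h3 h4)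

end Pool.Agent.Lib.MP_c2693b_gt
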