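import Pool.Agent.Lib.MP_c2693b_gt.Defs

open Set Topology

namespace Pool.Agent.Lib.MP_c2693b_gt

section

variable {Y : Type} [MetricSpace Y]

/-- A logarithm map at `m` for the points of `W`: radial isometry, contraction, first variation. -/
def HasLog (n : ℕ) (W : Set Y) (m : Y) : Prop :=
  ∃ lg : Y → Euc n,
    (∀ a ∈ W, ‖lg a‖ = dist m a) ∧ (∀ a ∈ W, ∀ b ∈ W, ‖lg a - lg b‖ ≤ dist a b) ∧
    ∀ (ι : Type) [Fintype ι] (z : ι → Y), (∀ i, z i ∈ W) →
      IsLocalMin (fun y => ∑ i, dist y (z i) ^ 2) m → ∑ i, lg (z i) = 0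

/-- The local metric properties of a Riemannian manifold of non-positive curvature. -/
def LocHad (n : ℕ) (Y : Type) [MetricSpace Y] : Prop :=
  ∀ x : Y, ∃ W ∈ 𝓝 x, (∀ a ∈ W, ∀ b ∈ W, ∃ c : ℝ → Y, IsSeg c a b) ∧ ∀ m ∈ W, HasLog n W m

end

/-- What the Wang argument uses of the Cartan-Hadamard cover `p : X → Y`. -/
structure WCover {X Y : Type} [MetricSpace X] [MetricSpace Y] (p : X → Y) (ρ : ℝ)
    (geo : X → X → ℝ → X) : Prop where
  pos : 0 < ρ
  univ : IsUnivCover p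
  proper : ProperSpace X
  iso : ∀ x, ∀ a ∈ Metric.ball x ρ, ∀ b ∈ Metric.ball x ρ, dist (p a) (p b) = dist a b
  onto : ∀ x, Metric.ball (p x) ρ ⊆ p '' Metric.ball x ρ
  seg : ∀ a b, IsSeg (geo a b) a b
  conv : ∀ a b c d, ∀ t ∈ Icc (0 : ℝ) 1,
    dist (geo a b t) (geo c d t) ≤ (1 - t) * dist a c + t * dist b d
  deck : ∀ a b, p a = p b → ∃ g : X ≃ᵢ X, p ∘ g = p ∧ g a = b
  free : ∀ g : X ≃ᵢ X, p ∘ g = p → ∀ x, g x = x → g = 1

/-- The spectral gap condition on the links of the clique complex of the graph `A`: every edge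
lies in `q` triangles, and the link of every vertex satisfies a Poincare inequality with constant
`lam` (the double sum runs over ordered pairs). -/
structure LinkGap {V : Type} [Fintype V] (A : SimpleGraph V) [DecidableRel A.Adj] (q : ℕ)
    (lam : ℝ) : Prop where
  pos : 0 < q
  half : 1 / 2 < lam
  deg : ∀ x y, A.Adj x y → (Finset.univ.filter fun z => A.Adj x z ∧ A.Adj y z).card = q
  gap : ∀ (x : V) (f : V → ℝ), ∑ y with A.Adj x y, f y = 0 →
    2 * lam * q * ∑ y with A.Adj x y, f y ^ 2 ≤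
      ∑ y with A.Adj x y, ∑ z with A.Adj x z ∧ A.Adj y z, (f y - f z) ^ 2

end Pool.Agent.Lib.MP_c2693b_gt
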