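import Pool.Agent.Lib.MP_c2693b_gt.Ob.Defs

open Set Topology

namespace Pool.Agent.Lib.MP_c2693b_gt

theorem HasLog.cn {n : ℕ} {Y : Type} [MetricSpace Y] {W : Set Y} {m : Y} (h : HasLog n W m)
    {a b p : Y} (ha : a ∈ W) (hb : b ∈ W) (hp : p ∈ W) (h1 : dist a m = dist a b / 2)
    (h2 : dist m b = dist a b / 2) :
    2 * dist m p ^ 2 + dist a b ^ 2 / 2 ≤ dist p a ^ 2 + dist p b ^ 2 := by
  obtain ⟨lg, l1, l2, l3⟩ := h
  have hs := l3 Bool (fun i => if i then a else b) (fun i => by cases i <;> simpa)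
    (IsMinOn.isLocalMin (s := univ) (fun y _ => by
      have t := dist_triangle_left a b y
      have d0 : 0 ≤ dist a b := dist_nonneg
      simp only [mem_ofPred_eq, Fintype.sum_bool, if_true, Bool.false_eq_true, if_false]
      rw [dist_comm m a, h1, h2]
      nlinarith [sq_nonneg (dist y a - dist y b), mul_self_le_mul_self d0 t]) Filter.univ_mem)
  simp only [Fintype.sum_bool, if_true, Bool.false_eq_true, if_false] at hs
  have e : lg b = -lg a := (neg_eq_of_add_eq_zero_right hs).symm
  have k1 := l2 p hp a ha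
  have k2 := l2 p hp b hb
  rw [e, sub_neg_eq_add] at k2
  have par := parallelogram_law_with_norm ℝ (lg p) (lg a)
  rw [l1 p hp, l1 a ha, dist_comm m a, h1] at par
  nlinarith [mul_self_le_mul_self (norm_nonneg _) k1, mul_self_le_mul_self (norm_nonneg _) k2]

theorem LocHad.locBus {n : ℕ} {Y : Type} [MetricSpace Y] [CompactSpace Y] (h : LocHad n Y) :
    ∃ r : ℝ, 0 < r ∧ (∀ x y : Y, dist x y < r → ∃ γ, IsSeg γ x y) ∧
      ∀ x y z m k : Y, dist x y < r → dist x z < r → dist x m = dist x y / 2 →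
        dist m y = dist x y / 2 → dist x k = dist x z / 2 → dist k z = dist x z / 2 →
        dist m k ≤ dist y z / 2 := by
  choose W hW hseg hlog using h
  obtain ⟨r, hr, hc⟩ := lebesgue_number_lemma_of_metric (s := (univ : Set Y)) isCompact_univ
    (c := fun x => interior (W x)) (fun _ => isOpen_interior)
    (fun x _ => mem_iUnion.2 ⟨x, mem_interior_iff_mem_nhds.2 (hW x)⟩)
  have hm : ∀ x : Y, ∃ i, ∀ y, dist x y < r → y ∈ W i := fun x => by
    obtain ⟨i, hi⟩ := hc x (mem_univ _)
    exact ⟨i, fun y hy => interior_subset (hi (by rwa [Metric.mem_ball, dist_comm]))⟩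
  refine ⟨r, hr, fun x y hxy => ?_, fun x y z m k hy hz a1 a2 b1 b2 => ?_⟩
  · obtain ⟨i, hi⟩ := hm x
    exact hseg i x (hi x (by simpa using hr)) y (hi y hxy)
  · obtain ⟨i, hi⟩ := hm x
    have hx := hi x (by simpa using hr)
    have hm' := hi m (by linarith)
    have hk := hi k (by linarith)
    have c1 := (hlog i k hk).cn hx (hi z hz) hm' b1 b2
    have c2 := (hlog i m hm').cn hx (hi y hy) (hi z hz) a1 a2
    rw [dist_comm k m, dist_comm m x, a1] at c1
    rw [dist_comm z x, dist_comm z y] at c2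
    refine abs_le_of_sq_le_sq' ?_ (by positivity) |>.2
    nlinarith

end Pool.Agent.Lib.MP_c2693b_gt
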