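import Pool.Agent.Lib.MP_c2693b_gt.Ob.RB

/-! Short geodesics in a chart of non-positive curvature. -/

open Set Topology Metric Filter

namespace Pool.Agent.Lib.MP_c2693b_gt

namespace Rm

variable {E : Type} [NormedAddCommGroup E] [NormedSpace ℝ E]
variable {g : E → E →L[ℝ] E →L[ℝ] ℝ} {Γ : E → E →L[ℝ] E →L[ℝ] E} {x0 : E} {R C a : ℝ}

/-- The initial velocities of the geodesics from `m` to the points of a geodesic `σ`. -/
theorem contract (h : Loc g Γ x0 R C) (ha : 12 * C * a ≤ 1) {m : E} (hm : m ∈ closedBall x0 R)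
    {σ w : ℝ → E} (hσ : Geo Γ x0 R a σ w) {γ v : ℝ → ℝ → E}
    (H : ∀ s ∈ Icc (0 : ℝ) 1, Geo Γ x0 R a (γ s) (v s) ∧ γ s 0 = m ∧ γ s 1 = σ s) :
    g m (v 1 0 - v 0 0) (v 1 0 - v 0 0) ≤ g (σ 0) (w 0) (w 0) := by
  have z0 : (0 : ℝ) ∈ Icc (0 : ℝ) 1 := by simp
  have hC := h.hC
  have a0 : 0 ≤ a := (norm_nonneg _).trans (hσ.spd 0 z0)
  have a1 : a ≤ 1 := by nlinarith
  have key : ∀ s ∈ Icc (0 : ℝ) 1, ∀ z ∈ Icc (0 : ℝ) 1, ‖v z 0 - v s 0‖ ≤ 4 / 3 * |z - s| ∧
      g m (v z 0 - v s 0) (v z 0 - v s 0) ≤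
        g (σ s) (σ z - σ s) (σ z - σ s) + 10 * C ^ 2 * |z - s| ^ 3 := fun s hs z hz => by
    obtain ⟨g1, b1, e1⟩ := H s hs
    obtain ⟨g2, b2, e2⟩ := H z hz
    obtain ⟨D, D0, hD, d1, -, -⟩ := apriori h ha g1 g2 (b1.trans b2.symm)
    have j := jacobi h a1 g1 g2 (b1.trans b2.symm) hD
    rw [e1, e2] at d1
    rw [b1, e1, e2] at j
    have l := mv1 hσ.d1 (fun t ht => (hσ.spd t ht).trans a1) hs hz
    have d2 : D ≤ 4 / 3 * |z - s| := by linarith
    refine ⟨(hD 0 z0).1.trans d2, j.trans ?_⟩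
    have : D ^ 3 ≤ (4 / 3 * |z - s|) ^ 3 := by gcongr
    have p : 0 ≤ |z - s| ^ 3 := by positivity
    have : 4 * D ^ 3 ≤ 10 * |z - s| ^ 3 := by rw [mul_pow] at this; linarith
    nlinarith [sq_nonneg C]
  set u := v 1 0 - v 0 0 with hu
  set en := g (σ 0) (w 0) (w 0) with hen
  have cF : ContinuousOn (fun s => v s 0) (Icc 0 1) :=
    (LipschitzOnWith.of_dist_le_mul (K := 4 / 3) fun z hz s hs => by
      simpa [dist_eq_norm] using (key s hs z hz).1).continuousOn
  have main := image_le_of_liminf_slope_right_le_deriv_boundary (f := fun s => g m u (v s 0))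
    (a := 0) (b := 1) ((g m u).continuous.comp_continuousOn cF)
    (B := fun s => g m u (v 0 0) + s * ((g m u u + en) / 2)) (B' := fun _ => (g m u u + en) / 2)
    (by simp) (by fun_prop)
    (fun x _ => by
      simpa using (hasDerivWithinAt_id x (Ici x)).mul_const ((g m u u + en) / 2))
    (fun s hs r hr => by
      have hs' := Ico_subset_Icc_self hs
      have hI : Ioc s 1 ∈ 𝓝[>] s := Ioc_mem_nhdsGT hs.2
      have t1 : Tendsto (slope σ s) (𝓝[>] s) (𝓝 (w s)) :=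
        (hasDerivWithinAt_iff_tendsto_slope.1 (hσ.d1 s hs')).mono_left
          (nhdsWithin_le_of_mem (mem_of_superset hI fun z hz =>
            ⟨⟨hs.1.trans hz.1.le, hz.2⟩, hz.1.ne'⟩))
      have t2 : Continuous fun x : E => g (σ s) x x := by fun_prop
      have t3 : Tendsto (fun z : ℝ => 10 * C ^ 2 * (z - s)) (𝓝[>] s) (𝓝 (10 * C ^ 2 * (s - s))) :=
        (Continuous.tendsto (by fun_prop) _).mono_left nhdsWithin_le_nhds
      have t4 := ((t2.tendsto _).comp t1).add t3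
      rw [hσ.energy h hs', sub_self, mul_zero, add_zero] at t4
      have t5 := t4.eventually (gt_mem_nhds (show en < 2 * r - g m u u by linarith))
      refine ((t5.and hI).mono fun z hz => ?_).frequently
      obtain ⟨h1, h2⟩ := hz
      have p : 0 < z - s := sub_pos.2 h2.1
      have k := (key s hs' z ⟨hs.1.trans h2.1.le, h2.2⟩).2
      rw [abs_of_pos p] at k
      have n := h.nonneg hm (u - (z - s)⁻¹ • (v z 0 - v s 0))
      have e : slope (fun s => g m u (v s 0)) s z = (z - s)⁻¹ * g m u (v z 0 - v s 0) := by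
        simp [slope_def_module]
      rw [e]
      simp only [Function.comp_apply, slope_def_module] at h1
      generalize v z 0 - v s 0 = y at *
      generalize σ z - σ s = x at *
      simp only [map_sub, map_smul, sub_apply, smul_apply, smul_eq_mul, h.symm m hm y u] at n h1
      have k2 : (z - s)⁻¹ * ((z - s)⁻¹ * g m y y) ≤
          (z - s)⁻¹ * ((z - s)⁻¹ * (g (σ s) x x + 10 * C ^ 2 * (z - s) ^ 3)) := by gcongr
      have k3 : (z - s)⁻¹ * ((z - s)⁻¹ * (g (σ s) x x + 10 * C ^ 2 * (z - s) ^ 3)) =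
          (z - s)⁻¹ * ((z - s)⁻¹ * g (σ s) x x) + 10 * C ^ 2 * (z - s) := by field_simp
      linarith)
    (x := 1) (by simp)
  have : g m u u = g m u (v 1 0) - g m u (v 0 0) := by rw [← map_sub]
  linarith

end Rm

open Rm in
theorem chartGeo_of_chartMet {E : Type} [NormedAddCommGroup E] [NormedSpace ℝ E]
    [FiniteDimensional ℝ E] {U : Set E} {g : E → E →L[ℝ] E →L[ℝ] ℝ} {Γ : E → E →L[ℝ] E →L[ℝ] E}
    (h : ChartMet U g Γ) {x0 : E} (hx : x0 ∈ U) : ∃ r c γ v en, ChartGeo U g x0 r c γ v en := by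
  have : CompleteSpace E := FiniteDimensional.complete ℝ E
  obtain ⟨R, R0, C, hU, hL⟩ := exists_loc h hx
  have hC := hL.hC
  obtain ⟨a, a0, aR, ha⟩ : ∃ a : ℝ, 0 < a ∧ a ≤ R / 2 ∧ 12 * C * a ≤ 1 := by
    refine ⟨min (R / 2) (1 / (12 * C)), by positivity, min_le_left _ _, ?_⟩
    calc 12 * C * min (R / 2) (1 / (12 * C)) ≤ 12 * C * (1 / (12 * C)) := by
          gcongr; exact min_le_right _ _
      _ = 1 := by field_simp
  have a1 : a ≤ 1 := by nlinarith
  have z0 : (0 : ℝ) ∈ Icc (0 : ℝ) 1 := by simp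
  have mem : ∀ p ∈ ball x0 (a / 4), p ∈ closedBall x0 R := fun p hp =>
    mem_closedBall.2 (by linarith [mem_ball.1 hp])
  have ex := fun (p : E) (hp : p ∈ ball x0 (a / 4)) (q : E) (hq : q ∈ ball x0 (a / 4)) =>
    bvp hL a0.le ha (p := p) (q := q) (mem_closedBall.2 (by linarith [mem_ball.1 hp])) (by
      have := dist_triangle_right q p x0
      rw [← dist_eq_norm]; linarith [mem_ball.1 hp, mem_ball.1 hq])
  choose! γ v H using ex
  have base : ∀ p ∈ ball x0 (a / 4), ∀ q ∈ ball x0 (a / 4),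
      (∀ t ∈ Icc (0 : ℝ) 1, ‖γ p q t - p‖ ≤ 4 / 3 * ‖q - p‖) ∧ ‖v p q 0‖ ≤ 4 / 3 * ‖q - p‖ ∧
        2 / 3 * ‖q - p‖ ≤ ‖v p q 0‖ := fun p hp q hq => by
    obtain ⟨D, D0, hD, d1, -, d3⟩ :=
      apriori hL ha (Geo.const (mem p hp) a0.le) (H p hp q hq).1 (H p hp q hq).2.1.symm
    simp only [(H p hp q hq).2.2, sub_zero] at hD d1 d3
    refine ⟨fun t ht => (hD t ht).2.trans (by nlinarith [ht.2]), (hD 0 z0).1.trans d1, ?_⟩
    have := norm_sub_norm_le (q - p) (v p q 0)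
    linarith
  have near := fun p hp q hq => (base p hp q hq).1
  refine ⟨a / 4, 3 * C, γ, v, fun p q => g p (v p q 0) (v p q 0), by positivity, by positivity,
    (closedBall_subset_closedBall (by linarith)).trans hU, fun p hp q hq => (H p hp q hq).2.1,
    fun p hp q hq => (H p hp q hq).2.2, fun p hp q hq => (H p hp q hq).1.d1, near,
    fun p hp q hq t ht => ?_, fun p hp q hq => ?_, fun p hp q hq => ?_, fun p hp q hq => ?_,
    fun p hp q hq => ?_, fun m hm p hp q hq => ?_⟩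
  · rw [(H p hp q hq).1.energy hL ht, (H p hp q hq).2.1]
  · refine HasFDerivAt.of_isLittleO (Asymptotics.IsBigO.trans_isLittleO ?_
      (Asymptotics.isLittleO_pow_sub_sub q one_lt_two))
    refine Asymptotics.IsBigO.of_bound (8 * C) ?_
    filter_upwards [isOpen_ball.mem_nhds hq] with q' hq'
    obtain ⟨g1, b1, e1⟩ := H p hp q hq
    obtain ⟨g2, b2, e2⟩ := H p hp q' hq'
    obtain ⟨D, D0, hD, d1, -, -⟩ := apriori hL ha g1 g2 (b1.trans b2.symm)
    have j := first_var hL a1 g1 g2 (b1.trans b2.symm) hD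
    rw [e1, e2] at d1
    rw [b1, b2, e1, e2] at j
    have : D ^ 2 ≤ (4 / 3 * ‖q' - q‖) ^ 2 := by gcongr
    have p : 0 ≤ ‖q' - q‖ ^ 2 := by positivity
    have : 4 * D ^ 2 ≤ 8 * ‖q' - q‖ ^ 2 := by rw [mul_pow] at this; linarith
    rw [Real.norm_eq_abs, Real.norm_of_nonneg p, smul_apply, smul_eq_mul]
    nlinarith
  · have l := hL.low p (mem p hp) (v p q 0)
    have n := hL.nonneg (mem p hp) (v p q 0)
    have : (2 / 3 * ‖q - p‖) ^ 2 ≤ ‖v p q 0‖ ^ 2 := by gcongr; exact (base p hp q hq).2.2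
    rw [mul_pow] at this
    nlinarith [sq_nonneg ‖q - p‖]
  · have b := (base p hp q hq).2.1
    have l : ‖g p (v p q 0) (v p q 0)‖ ≤ C * (4 / 3 * ‖q - p‖) * (4 / 3 * ‖q - p‖) :=
      ((g p).le_opNorm₂ _ _).trans (by gcongr; exact hL.bg.n0 p (mem p hp))
    have := (le_abs_self _).trans l
    nlinarith [sq_nonneg ‖q - p‖]
  · obtain ⟨g1, b1, e1⟩ := H p hp q hq
    obtain ⟨g2, b2, e2⟩ := H q hq p hp
    obtain ⟨D, D0, hD, d1, -, -⟩ := apriori hL ha g1.rev g2 (by simp [e1, b2])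
    have := (hD 0 z0).1
    simp only [e2, sub_self, b1, norm_zero, mul_zero, sub_zero] at d1 this
    exact sub_eq_zero.1 (norm_le_zero_iff.1 (this.trans d1))
  · have s : ball x0 (a / 4 / 4) ⊆ ball x0 (a / 4) := ball_subset_ball (by linarith)
    obtain ⟨g2, b2, e2⟩ := H p (s hp) q (s hq)
    have hσ2 : ∀ t ∈ Icc (0 : ℝ) 1, γ p q t ∈ ball x0 (a / 4) := fun t ht => by
      have n := near p (s hp) q (s hq) t ht
      have := dist_triangle_right q p x0
      have := dist_triangle (γ p q t) p x0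
      rw [← dist_eq_norm, ← dist_eq_norm] at n
      rw [mem_ball] at hp hq ⊢
      linarith
    have := contract hL ha (mem m hm) g2 (γ := fun s => γ m (γ p q s))
      (v := fun s => v m (γ p q s)) fun t ht => H m hm _ (hσ2 t ht)
    simp only [b2, e2] at this
    rw [← neg_sub (v m q 0)]
    simpa only [map_neg, neg_apply, neg_neg] using this

end Pool.Agent.Lib.MP_c2693b_gt
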