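import Pool.Agent.Lib.MP_c2693b_gt.Ob.R4
import Pool.Agent.Lib.MP_c2693b_gt.Ob.RC

open Set Topology Metric
open scoped Manifold ContDiff

namespace Pool.Agent.Lib.MP_c2693b_gt

theorem locHad_of_atlas {m : ℕ} {N : Type} [tN : TopologicalSpace N] [T2Space N] [CompactSpace N]
    [ChartedSpace (Euc m) N] {g Γ} (h : AtlasMet (E := Euc m) (N := N) g Γ) :
    ∃ (Y : Type) (_ : MetricSpace Y) (_ : CompactSpace Y), LocHad m Y ∧ Nonempty (N ≃ₜ Y) :=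
  locHad_of_geo h fun a => chartGeo_of_chartMet (h.met a) (mem_chart_target _ a)

theorem locHad_of_npc {M : Type} [TopologicalSpace M] (h : HasNPCSmoothing M) :
    ∃ (n : ℕ) (Y : Type) (_ : MetricSpace Y) (_ : CompactSpace Y),
      LocHad n Y ∧ Nonempty (M ≃ₜ Y) := by
  obtain ⟨m, N, _, _, _, _, _, gR, hg, ⟨e⟩⟩ := h
  obtain ⟨g, Γ, hA⟩ := atlasMet_of_nonpos gR hg
  obtain ⟨Y, i1, i2, hY, ⟨e'⟩⟩ := locHad_of_atlas hA
  exact ⟨m, Y, i1, i2, hY, ⟨e.trans e'⟩⟩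

end Pool.Agent.Lib.MP_c2693b_gt
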