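import Pool.Agent.Lib.MP_c2693b_gt.Ob.Defs

/-! The energy argument: a cocycle of deck transformations over a complex whose links have
spectral gap above `1/2` has an equivariant map of energy zero. -/

set_option autoImplicit false
set_option linter.unusedSectionVars false

open Set Topology

namespace Pool.Agent.Lib.MP_c2693b_gt

namespace Wang

variable {n : ℕ} {X Y : Type} [MetricSpace X] [MetricSpace Y] {p : X → Y}
  {ρ : ℝ} {geo : X → X → ℝ → X}

theorem deck_mul {g h : X ≃ᵢ X} (hg : p ∘ g = p) (hh : p ∘ h = p) : p ∘ (g * h : X ≃ᵢ X) = p := by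
  funext x
  have h1 := congrFun hg (h x)
  have h2 := congrFun hh x
  simp only [Function.comp_apply] at h1 h2 ⊢
  rw [IsometryEquiv.mul_apply, h1, h2]

theorem deck_inv {g : X ≃ᵢ X} (hg : p ∘ g = p) : p ∘ (g⁻¹ : X ≃ᵢ X) = p := by
  funext x
  have h1 := congrFun hg (g⁻¹ x)
  simp only [Function.comp_apply] at h1 ⊢
  rw [← h1, IsometryEquiv.apply_inv_self]

/-- Finitely many deck maps move a point by a bounded amount. -/
theorem deck_finite (hp : WCover p ρ geo) (x0 : X) (L : ℝ) :
    {h : X ≃ᵢ X | p ∘ h = p ∧ dist x0 (h x0) ≤ L}.Finite := by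
  have := hp.proper
  have hS : {x : X | p x = p x0 ∧ x ∈ Metric.closedBall x0 L}.Finite := by
    obtain ⟨t, -, ht, hc⟩ :=
      finite_cover_balls_of_compact (isCompact_closedBall x0 L) hp.pos
    refine (ht.biUnion (t := fun c => {x : X | p x = p x0 ∧ x ∈ Metric.ball c ρ}) ?_).subset ?_
    · intro c _
      refine Set.Subsingleton.finite ?_
      intro a ha b hb
      have := hp.iso c a ha.2 b hb.2
      rw [ha.1, hb.1, dist_self] at this
      exact dist_eq_zero.1 this.symm
    · intro x hx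
      obtain ⟨c, hc1, hc2⟩ := Set.mem_iUnion₂.1 (hc hx.2)
      exact Set.mem_iUnion₂.2 ⟨c, hc1, hx.1, hc2⟩
  refine Set.Finite.of_finite_image (f := fun h : X ≃ᵢ X => h x0) (hS.subset ?_) ?_
  · rintro _ ⟨h, hh, rfl⟩
    exact ⟨congrFun hh.1 x0, by rw [Metric.mem_closedBall, dist_comm]; exact hh.2⟩
  · intro g hg h hh e
    have h1 : (g⁻¹ * h : X ≃ᵢ X) = 1 := by
      refine hp.free _ (deck_mul (deck_inv hg.1) hh.1) x0 ?_
      have e' : g x0 = h x0 := e
      rw [IsometryEquiv.mul_apply, ← e', IsometryEquiv.inv_apply_self]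
    exact inv_mul_eq_one.1 h1

/-- Every point is moved into a fixed ball by a deck map. -/
theorem cocompact [CompactSpace Y] (hp : WCover p ρ geo) (x0 : X) :
    ∃ R : ℝ, ∀ x : X, ∃ k : X ≃ᵢ X, p ∘ k = p ∧ dist x0 (k x) ≤ R := by
  obtain ⟨t, -, ht, hc⟩ := finite_cover_balls_of_compact (isCompact_univ (X := Y)) hp.pos
  choose s hs using hp.univ.2.1
  obtain ⟨R, hR⟩ := (ht.image fun y => dist x0 (s y)).bddAbove
  refine ⟨R + ρ, fun x => ?_⟩
  obtain ⟨c, hc1, hc2⟩ := Set.mem_iUnion₂.1 (hc (Set.mem_univ (p x)))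
  rw [← hs c] at hc2
  obtain ⟨a, ha, e⟩ := hp.onto _ hc2
  obtain ⟨k, hk, rfl⟩ := hp.deck x a e.symm
  refine ⟨k, hk, ?_⟩
  have h1 : dist x0 (s c) ≤ R := hR ⟨c, hc1, rfl⟩
  have h2 : dist (s c) (k x) < ρ := by rw [dist_comm]; exact ha
  linarith [dist_triangle x0 (s c) (k x)]

variable {V : Type} [Fintype V] (A : SimpleGraph V) [DecidableRel A.Adj]

/-- The energy of a vertex map. -/
noncomputable def en (g : V → V → X ≃ᵢ X) (F : V → X) : ℝ :=
  ∑ u, ∑ v, if A.Adj u v then dist (F u) (g u v (F v)) ^ 2 else 0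

theorem term_nonneg (g : V → V → X ≃ᵢ X) (F : V → X) (u v : V) :
    0 ≤ (if A.Adj u v then dist (F u) (g u v (F v)) ^ 2 else 0) := by
  split_ifs <;> positivity

theorem term_le (g : V → V → X ≃ᵢ X) (F : V → X) {u v : V} (h : A.Adj u v) :
    dist (F u) (g u v (F v)) ^ 2 ≤ en A g F := by
  have h1 : (if A.Adj u v then dist (F u) (g u v (F v)) ^ 2 else 0) ≤
      ∑ v, if A.Adj u v then dist (F u) (g u v (F v)) ^ 2 else 0 :=
    Finset.single_le_sum (f := fun v => if A.Adj u v then dist (F u) (g u v (F v)) ^ 2 else 0)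
      (fun v _ => term_nonneg A g F u v) (Finset.mem_univ v)
  rw [if_pos h] at h1
  exact h1.trans (Finset.single_le_sum
    (f := fun u => ∑ v, if A.Adj u v then dist (F u) (g u v (F v)) ^ 2 else 0)
    (fun u _ => Finset.sum_nonneg fun v _ => term_nonneg A g F u v) (Finset.mem_univ u))

theorem continuous_en (g : V → V → X ≃ᵢ X) : Continuous (en A g) := by
  unfold en
  refine continuous_finsetSum _ fun u _ => continuous_finsetSum _ fun v _ => ?_
  split_ifs
  · exact ((continuous_apply u).dist ((g u v).continuous.comp (continuous_apply v))).pow 2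
  · exact continuous_const

/-- The energy has a minimiser. -/
theorem exists_min [CompactSpace Y] (hp : WCover p ρ geo) [Nonempty X]
    (g : V → V → X ≃ᵢ X) (hg : ∀ u v, p ∘ g u v = p) :
    ∃ F : V → X, ∀ F' : V → X, en A g F ≤ en A g F' := by
  have := hp.proper
  obtain ⟨x0⟩ := ‹Nonempty X›
  obtain ⟨R, hR⟩ := cocompact hp x0
  choose k hk hkR using hR
  set F0 : V → X := fun _ => x0 with hF0
  set L : ℝ := max 0 (R + √(en A g F0) + R) with hL
  let ty : (V → X) → V → V → X ≃ᵢ X := fun F u v =>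
    if A.Adj u v then k (F u) * g u v * (k (F v))⁻¹ else 1
  have hfin : (ty '' {F | en A g F ≤ en A g F0}).Finite := by
    refine (Set.Finite.pi' fun u : V => Set.Finite.pi' fun v : V => deck_finite hp x0 L).subset ?_
    rintro _ ⟨F, hF, rfl⟩ u v
    by_cases h : A.Adj u v
    · simp only [ty, if_pos h]
      refine ⟨deck_mul (deck_mul (hk _) (hg u v)) (deck_inv (hk _)), le_max_of_le_right ?_⟩
      have h1 : dist (F u) (g u v (F v)) ≤ √(en A g F0) :=
        Real.le_sqrt_of_sq_le ((term_le A g F h).trans hF)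
      have h2 : dist (k (F u) (F u)) ((k (F u) * g u v * (k (F v))⁻¹ : X ≃ᵢ X) (k (F v) (F v))) =
          dist (F u) (g u v (F v)) := by
        rw [IsometryEquiv.mul_apply, IsometryEquiv.mul_apply, IsometryEquiv.inv_apply_self,
          IsometryEquiv.dist_eq]
      have h3 : dist ((k (F u) * g u v * (k (F v))⁻¹ : X ≃ᵢ X) (k (F v) (F v)))
          ((k (F u) * g u v * (k (F v))⁻¹ : X ≃ᵢ X) x0) ≤ R := by
        rw [IsometryEquiv.dist_eq, dist_comm]; exact hkR _
      have h4 := dist_triangle4 x0 (k (F u) (F u))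
        ((k (F u) * g u v * (k (F v))⁻¹ : X ≃ᵢ X) (k (F v) (F v)))
        ((k (F u) * g u v * (k (F v))⁻¹ : X ≃ᵢ X) x0)
      linarith [hkR (F u)]
    · simp only [ty, if_neg h]
      refine ⟨rfl, ?_⟩
      simp [hL]
  have hch : ∀ τ ∈ ty '' {F | en A g F ≤ en A g F0}, ∃ G : V → X, ty G = τ := by
    rintro _ ⟨F, -, rfl⟩; exact ⟨F, rfl⟩
  choose! G hG using hch
  let K : Set (V → X) := ⋃ τ ∈ ty '' {F | en A g F ≤ en A g F0},
    Set.pi Set.univ fun u => ((k (G τ u))⁻¹ : X ≃ᵢ X) '' Metric.closedBall x0 R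
  have hK : IsCompact K := hfin.isCompact_biUnion fun τ _ =>
    isCompact_univ_pi fun u => (isCompact_closedBall x0 R).image (IsometryEquiv.continuous _)
  have key : ∀ F, en A g F ≤ en A g F0 → ∃ F2 ∈ K, en A g F2 = en A g F := by
    intro F hF
    have hm : ty F ∈ ty '' {F | en A g F ≤ en A g F0} := ⟨F, hF, rfl⟩
    refine ⟨fun u => (k (G (ty F) u))⁻¹ (k (F u) (F u)), ?_, ?_⟩
    · refine Set.mem_iUnion₂.2 ⟨ty F, hm, fun u _ => ⟨k (F u) (F u), ?_, rfl⟩⟩
      rw [Metric.mem_closedBall, dist_comm]; exact hkR _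
    · refine Finset.sum_congr rfl fun u _ => Finset.sum_congr rfl fun v _ => ?_
      by_cases h : A.Adj u v
      · simp only [if_pos h]
        have e := congrFun (congrFun (hG _ hm) u) v
        simp only [ty, if_pos h] at e
        have e2 := congrArg (fun j : X ≃ᵢ X => j (k (F v) (F v))) e
        simp only [IsometryEquiv.mul_apply, IsometryEquiv.inv_apply_self] at e2
        rw [← (k (G (ty F) u)).dist_eq, IsometryEquiv.apply_inv_self]
        simp only [ty] at e2 ⊢
        rw [e2, IsometryEquiv.dist_eq]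
      · simp only [if_neg h]
  obtain ⟨F1, hF1, e1⟩ := key F0 le_rfl
  obtain ⟨F, -, hF⟩ := hK.exists_isMinOn ⟨F1, hF1⟩ (continuous_en A g).continuousOn
  refine ⟨F, fun F' => ?_⟩
  rcases le_total (en A g F') (en A g F0) with h | h
  · obtain ⟨F2, h2, e2⟩ := key F' h
    exact e2 ▸ hF h2
  · exact ((hF hF1 : en A g F ≤ en A g F1).trans e1.le).trans h

/-- At a minimiser every vertex minimises the sum of squared distances to its neighbours. -/
theorem vertex_min (g : V → V → X ≃ᵢ X) (hinv : ∀ u v, A.Adj u v → g u v * g v u = 1)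
    {F : V → X} (hF : ∀ F' : V → X, en A g F ≤ en A g F') (u : V) (x : X) :
    ∑ v, (if A.Adj u v then dist (F u) (g u v (F v)) ^ 2 else 0) ≤
      ∑ v, (if A.Adj u v then dist x (g u v (F v)) ^ 2 else 0) := by
  classical
  let δ : V → ℝ := fun v => (if A.Adj u v then dist x (g u v (F v)) ^ 2 else 0) -
    (if A.Adj u v then dist (F u) (g u v (F v)) ^ 2 else 0)
  have sw : ∀ a, A.Adj u a → ∀ w, dist (F a) (g a u w) = dist w (g u a (F a)) := by
    intro a h w
    rw [← (g u a).dist_eq, ← IsometryEquiv.mul_apply, hinv u a h, dist_comm]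
    rfl
  have e : en A g (Function.update F u x) = en A g F + ∑ v, δ v + ∑ v, δ v := by
    have h1 : ∑ v, δ v = ∑ a, ∑ b, if a = u then δ b else 0 := by
      rw [Finset.sum_comm]; simp
    have h2 : ∑ v, δ v = ∑ a, ∑ b, if b = u then δ a else 0 := by simp
    conv_rhs => rw [add_assoc]; arg 2; congr; rw [h1]; rfl; rw [h2]
    unfold en
    rw [← Finset.sum_add_distrib, ← Finset.sum_add_distrib]
    refine Finset.sum_congr rfl fun a _ => ?_
    rw [← Finset.sum_add_distrib, ← Finset.sum_add_distrib]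
    refine Finset.sum_congr rfl fun b _ => ?_
    by_cases ha : a = u
    · subst ha
      by_cases hb : b = a
      · subst hb; simp [δ]
      · simp [δ, hb]
    · by_cases hb : b = u
      · subst hb
        by_cases h : A.Adj a b
        · simp [δ, ha, h, h.symm, sw a h.symm]
        · have h' : ¬ A.Adj b a := fun h' => h h'.symm
          simp [δ, ha, h, h']
      · simp [ha, hb]
  have := hF (Function.update F u x)
  rw [e] at this
  have h3 : 0 ≤ ∑ v, δ v := by linarith
  simp only [δ, Finset.sum_sub_distrib] at h3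
  linarith

/-- Logarithms at a point that minimises the sum of squared distances to finitely many points. -/
theorem exists_log (hp : WCover p ρ geo) (hY : LocHad n Y) {ι : Type} [Fintype ι] (x : X)
    (y : ι → X) (hm : ∀ x', ∑ i, dist x (y i) ^ 2 ≤ ∑ i, dist x' (y i) ^ 2) :
    ∃ a : ι → Euc n, ∑ i, a i = 0 ∧ (∀ i, ‖a i‖ = dist x (y i)) ∧
      ∀ i j, ‖a i - a j‖ ≤ dist (y i) (y j) := by
  obtain ⟨W, hW, -, hl⟩ := hY (p x)
  obtain ⟨lg, l1, l2, l3⟩ := hl (p x) (mem_of_mem_nhds hW)
  obtain ⟨ε, hε, hb⟩ := Metric.mem_nhds_iff.1 hW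
  have hρ := hp.pos
  set S := ∑ i, dist x (y i) with hS
  have hS0 : 0 ≤ S := Finset.sum_nonneg fun i _ => dist_nonneg
  have hSi : ∀ i, dist x (y i) ≤ S := fun i =>
    Finset.single_le_sum (f := fun i => dist x (y i)) (fun i _ => dist_nonneg) (Finset.mem_univ i)
  set e := min ε ρ with he
  have he0 : 0 < e := lt_min hε hρ
  set t := min 1 (e / (1 + S)) with ht
  have ht0 : 0 < t := lt_min one_pos (by positivity)
  have ht1 : t ≤ 1 := min_le_left _ _
  have htI : t ∈ Icc (0 : ℝ) 1 := ⟨ht0.le, ht1⟩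
  have hte : ∀ i, t * dist x (y i) < e := by
    intro i
    have h1 : t * (1 + S) ≤ e := (le_div_iff₀ (by positivity)).1 (min_le_right _ _)
    nlinarith [hSi i]
  let z : ι → X := fun i => geo x (y i) t
  have d1 : ∀ i, dist x (z i) = t * dist x (y i) := by
    intro i
    obtain ⟨s0, -, s2⟩ := hp.seg x (y i)
    have := s2 0 ⟨le_rfl, zero_le_one⟩ t htI
    rwa [s0, zero_sub, abs_neg, abs_of_pos ht0] at this
  have d2 : ∀ i, dist (z i) (y i) = (1 - t) * dist x (y i) := by
    intro i
    obtain ⟨-, s1, s2⟩ := hp.seg x (y i)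
    have := s2 t htI 1 ⟨zero_le_one, le_rfl⟩
    rwa [s1, abs_sub_comm, abs_of_nonneg (sub_nonneg.2 ht1)] at this
  have d3 : ∀ i j, dist (z i) (z j) ≤ t * dist (y i) (y j) := by
    intro i j
    have := hp.conv x (y i) x (y j) t htI
    rwa [dist_self, mul_zero, zero_add] at this
  have zb : ∀ i, z i ∈ Metric.ball x ρ := fun i => by
    rw [Metric.mem_ball, dist_comm, d1]; exact (hte i).trans_le (min_le_right _ _)
  have xb : x ∈ Metric.ball x ρ := Metric.mem_ball_self hρ
  have zW : ∀ i, p (z i) ∈ W := fun i => hb (by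
    rw [Metric.mem_ball, hp.iso x _ (zb i) _ xb, dist_comm, d1]
    exact (hte i).trans_le (min_le_left _ _))
  have hmin : IsLocalMin (fun w => ∑ i, dist w (p (z i)) ^ 2) (p x) := by
    filter_upwards [Metric.ball_mem_nhds (p x) hρ] with w hw
    obtain ⟨x', hx', rfl⟩ := hp.onto x hw
    have e1 : ∑ i, dist (p x) (p (z i)) ^ 2 = t ^ 2 * ∑ i, dist x (y i) ^ 2 := by
      rw [Finset.mul_sum]
      refine Finset.sum_congr rfl fun i _ => ?_
      rw [hp.iso x _ xb _ (zb i), d1, mul_pow]
    have e2 : t * ∑ i, dist x' (y i) ^ 2 ≤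
        ∑ i, dist (p x') (p (z i)) ^ 2 + t * (1 - t) * ∑ i, dist x (y i) ^ 2 := by
      rw [Finset.mul_sum, Finset.mul_sum, ← Finset.sum_add_distrib]
      refine Finset.sum_le_sum fun i _ => ?_
      rw [hp.iso x _ hx' _ (zb i)]
      have h1 := dist_triangle x' (z i) (y i)
      rw [d2] at h1
      have h2 : dist x' (y i) ^ 2 ≤ (dist x' (z i) + (1 - t) * dist x (y i)) ^ 2 :=
        pow_le_pow_left₀ dist_nonneg h1 2
      have h3 := mul_nonneg (sub_nonneg.2 ht1) (sq_nonneg (dist x' (z i) - t * dist x (y i)))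
      nlinarith [mul_le_mul_of_nonneg_left h2 ht0.le]
    show ∑ i, dist (p x) (p (z i)) ^ 2 ≤ ∑ i, dist (p x') (p (z i)) ^ 2
    nlinarith [mul_le_mul_of_nonneg_left (hm x') ht0.le]
  have hsum := l3 ι (fun i => p (z i)) zW hmin
  refine ⟨fun i => t⁻¹ • lg (p (z i)), ?_, fun i => ?_, fun i j => ?_⟩
  · rw [← Finset.smul_sum, hsum, smul_zero]
  · rw [norm_smul, l1 _ (zW i), hp.iso x _ xb _ (zb i), d1, Real.norm_eq_abs,
      abs_of_pos (inv_pos.2 ht0), inv_mul_cancel_left₀ ht0.ne']
  · rw [← smul_sub, norm_smul, Real.norm_eq_abs, abs_of_pos (inv_pos.2 ht0),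
      inv_mul_le_iff₀ ht0]
    refine (l2 _ (zW i) _ (zW j)).trans ?_
    rw [hp.iso x _ (zb i) _ (zb j)]
    exact d3 i j

/-- The link inequality for vector valued functions. -/
theorem gap_vec {q : ℕ} {lam : ℝ} (hA : LinkGap A q lam) (x : V) (a : V → Euc n)
    (ha : ∑ y with A.Adj x y, a y = 0) :
    2 * lam * q * ∑ y with A.Adj x y, ‖a y‖ ^ 2 ≤
      ∑ y with A.Adj x y, ∑ z with A.Adj x z ∧ A.Adj y z, ‖a y - a z‖ ^ 2 := by
  have h : ∀ i : Fin n, 2 * lam * q * ∑ y with A.Adj x y, a y i ^ 2 ≤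
      ∑ y with A.Adj x y, ∑ z with A.Adj x z ∧ A.Adj y z, (a y i - a z i) ^ 2 := by
    intro i
    refine hA.gap x (fun y => a y i) ?_
    have := congrArg (fun w : Euc n => w i) ha
    simpa using this
  have h2 := Finset.sum_le_sum fun i (_ : i ∈ Finset.univ) => h i
  simp only [EuclideanSpace.real_norm_sq_eq, PiLp.sub_apply]
  rw [← Finset.mul_sum, Finset.sum_comm] at h2
  refine h2.trans (le_of_eq ?_)
  rw [Finset.sum_comm]
  exact Finset.sum_congr rfl fun y _ => Finset.sum_comm

end Wang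

open Wang in
/-- Every cocycle of deck transformations has an equivariant vertex map of energy zero. -/
theorem wang {n : ℕ} {X Y : Type} [MetricSpace X] [MetricSpace Y] [CompactSpace Y] {p : X → Y}
    {ρ : ℝ} {geo : X → X → ℝ → X} (hp : WCover p ρ geo) (hY : LocHad n Y) [Nonempty X]
    {V : Type} [Fintype V] (A : SimpleGraph V) [DecidableRel A.Adj] {q : ℕ} {lam : ℝ}
    (hA : LinkGap A q lam) (g : V → V → X ≃ᵢ X) (hg : ∀ u v, p ∘ g u v = p)
    (hinv : ∀ u v, A.Adj u v → g u v * g v u = 1)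
    (htri : ∀ u v w, A.Adj u v → A.Adj v w → A.Adj u w → g u v * g v w = g u w) :
    ∃ F : V → X, ∀ u v, A.Adj u v → g u v (F v) = F u := by
  obtain ⟨F, hF⟩ := exists_min A hp g hg
  have loc : ∀ u, 2 * lam * q * ∑ v, (if A.Adj u v then dist (F u) (g u v (F v)) ^ 2 else 0) ≤
      ∑ v, ∑ w, if A.Adj v w then
        (if A.Adj v u ∧ A.Adj w u then dist (F v) (g v w (F w)) ^ 2 else 0) else 0 := by
    intro u
    let y : V → X := fun v => if A.Adj u v then g u v (F v) else F u
    obtain ⟨a, a0, a1, a2⟩ := exists_log hp hY (F u) y fun x' => by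
      refine le_trans (le_of_eq ?_) ((vertex_min A g hinv hF u x').trans ?_)
      · refine Finset.sum_congr rfl fun v _ => ?_
        by_cases h : A.Adj u v <;> simp [y, h]
      · refine Finset.sum_le_sum fun v _ => ?_
        by_cases h : A.Adj u v <;> simp [y, h]
    have a3 : ∑ v with A.Adj u v, a v = 0 := by
      rw [← a0, Finset.sum_filter]
      refine Finset.sum_congr rfl fun v _ => ?_
      by_cases h : A.Adj u v
      · rw [if_pos h]
      · rw [if_neg h]
        have := a1 v
        simp only [y, if_neg h, dist_self] at this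
        exact (norm_eq_zero.1 this).symm
    have h1 := gap_vec A hA u a a3
    simp only [Finset.sum_filter] at h1
    refine le_trans (le_of_eq ?_) (h1.trans ?_)
    · congr 1
      refine Finset.sum_congr rfl fun v _ => ?_
      by_cases h : A.Adj u v
      · simp only [if_pos h, a1, y]
      · simp only [if_neg h]
    · refine Finset.sum_le_sum fun v _ => ?_
      by_cases h : A.Adj u v
      · rw [if_pos h]
        refine Finset.sum_le_sum fun w _ => ?_
        by_cases h2 : A.Adj u w ∧ A.Adj v w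
        · rw [if_pos h2, if_pos h2.2, if_pos ⟨h.symm, h2.1.symm⟩]
          refine pow_le_pow_left₀ (norm_nonneg _) ((a2 v w).trans (le_of_eq ?_)) 2
          simp only [y, if_pos h, if_pos h2.1]
          rw [← htri u v w h h2.2 h2.1, IsometryEquiv.mul_apply, IsometryEquiv.dist_eq]
        · rw [if_neg h2]
          split_ifs <;> positivity
      · rw [if_neg h]
        refine Finset.sum_nonneg fun w _ => ?_
        split_ifs <;> positivity
  have h1 := Finset.sum_le_sum fun u (_ : u ∈ Finset.univ) => loc u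
  have h2 : (∑ u, ∑ v, ∑ w, if A.Adj v w then
      (if A.Adj v u ∧ A.Adj w u then dist (F v) (g v w (F w)) ^ 2 else 0) else 0) =
      q * en A g F := by
    unfold en
    rw [Finset.sum_comm, Finset.mul_sum]
    refine Finset.sum_congr rfl fun v _ => ?_
    rw [Finset.sum_comm, Finset.mul_sum]
    refine Finset.sum_congr rfl fun w _ => ?_
    by_cases h : A.Adj v w
    · simp only [if_pos h]
      rw [← Finset.sum_filter, Finset.sum_const, hA.deg v w h, nsmul_eq_mul]
    · simp [h]
  rw [← Finset.mul_sum, h2] at h1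
  have hq : (0 : ℝ) < q := Nat.cast_pos.2 hA.pos
  have hl := hA.half
  have h3 : en A g F ≤ 0 := by
    by_contra hc
    rw [not_le] at hc
    have h4 : 2 * lam * q * en A g F ≤ q * en A g F := h1
    nlinarith [mul_pos (mul_pos hq hc) (sub_pos.2 hl)]
  refine ⟨F, fun u v h => ?_⟩
  have h5 := (term_le A g F h).trans h3
  have h6 : dist (F u) (g u v (F v)) = 0 := by
    nlinarith [dist_nonneg (x := F u) (y := g u v (F v))]
  exact (dist_eq_zero.1 h6).symm

end Pool.Agent.Lib.MP_c2693b_gt
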