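import Pool.Agent.Lib.MP_c2693b_gt.CH
import Pool.Agent.Lib.MP_c2693b_gt.Ob.Wang
import Pool.Agent.Lib.MP_c2693b_gt.Ob.RTop
import Pool.Agent.Lib.MP_c2693b_gt.Ob.Bus
import Pool.Agent.Lib.MP_c2693b_gt.Ob.FourCore

namespace Pool.Agent.Lib.MP_c2693b_gt

theorem four_cycle {M : Type} [TopologicalSpace M] [ConnectedSpace M] (hM : HasNPCSmoothing M)
    {V : Type} [Fintype V] (A : SimpleGraph V) [DecidableRel A.Adj] {q : ℕ} {lam : ℝ}
    (hA : LinkGap A q lam) (P : V → M) (γ : ∀ u v, A.Adj u v → Path (P u) (P v))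
    (hinv : ∀ u v (h : A.Adj u v), (γ v u h.symm).Homotopic (γ u v h).symm)
    (htri : ∀ u v w (h1 : A.Adj u v) (h2 : A.Adj v w) (h3 : A.Adj u w),
      ((γ u v h1).trans (γ v w h2)).Homotopic (γ u w h3))
    {a b c d : V} (h1 : A.Adj a b) (h2 : A.Adj b c) (h3 : A.Adj a d) (h4 : A.Adj d c) :
    ((γ a b h1).trans (γ b c h2)).Homotopic ((γ a d h3).trans (γ d c h4)) := by
  obtain ⟨n, Y, _, _, hY, ⟨e⟩⟩ := locHad_of_npc hM
  have : ConnectedSpace Y := e.surjective.connectedSpace e.continuous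
  obtain ⟨r, hr⟩ := hY.locBus
  obtain ⟨X, _, p, ρ, geo, hp⟩ := cartan_hadamard (X := Y) (r := r) hr
  have hw := hp.toWCover
  have := hw.univ.2.2.1
  have eq : ∀ g : X ≃ᵢ X, (e.symm ∘ p) ∘ g = e.symm ∘ p ↔ p ∘ g = p := fun g =>
    ⟨fun h => funext fun x => e.symm.injective (congrFun h x),
      fun h => funext fun x => congrArg e.symm (congrFun h x)⟩
  refine four_core (q := e.symm ∘ p) (hw.univ.1.homeomorph_comp e.symm)
    (e.symm.surjective.comp hw.univ.2.1) (fun x y h => ?_) (fun g h => hw.free g ((eq g).1 h)) A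
    (fun g hg => wang hw hY A hA g fun u v => (eq _).1 (hg u v)) P γ hinv htri h1 h2 h3 h4
  obtain ⟨g, hg, k⟩ := hw.deck x y (e.symm.injective h)
  exact ⟨g, (eq g).2 hg, k⟩

end Pool.Agent.Lib.MP_c2693b_gt
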