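import Pool.Agent.Lib.MP_c2693b_gt.Ob.R0a

/-! The chart data of a Riemannian manifold of non-positive curvature. -/

open Set Topology Metric Bundle
open scoped Manifold ContDiff

namespace Pool.Agent.Lib.MP_c2693b_gt

namespace R0

variable {m : ℕ} {N : Type} [TopologicalSpace N] [ChartedSpace (Euc m) N] [IsManifold (𝓡 m) ∞ N]
  (gR : Bundle.ContMDiffRiemannianMetric (𝓡 m) ∞ (Euc m) fun x : N => TangentSpace (𝓡 m) x)

/-- The metric at a point as a bilinear form on the model space. -/
noncomputable def ip (x : N) : Euc m →L[ℝ] Euc m →L[ℝ] ℝ := gR.inner x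

/-- The derivative of the inverse chart. -/
noncomputable def ds (a : N) (z : Euc m) : Euc m →L[ℝ] Euc m :=
  mfderiv (𝓡 m) (𝓡 m) (chartAt (Euc m) a).symm z

lemma sum_single (u : Euc m) : u = ∑ l, u l • EuclideanSpace.single l (1 : ℝ) := by
  ext i
  simp [Finset.sum_apply, Pi.single_apply]

lemma gOf_coef (a : N) (z u v : Euc m) :
    gOf (coef gR a) z u v = ip gR ((chartAt (Euc m) a).symm z) (ds a z u) (ds a z v) := by
  have h : ∀ i j, coef gR a z i j = ip gR ((chartAt (Euc m) a).symm z)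
      (ds a z (EuclideanSpace.single i 1)) (ds a z (EuclideanSpace.single j 1)) := fun _ _ => rfl
  rw [gOf_apply]
  conv_rhs => rw [sum_single u, sum_single v]
  simp only [map_sum, map_smul, sum_apply, smul_apply, smul_eq_mul, h]
  rw [Finset.sum_comm]
  refine Finset.sum_congr rfl fun i _ => ?_
  rw [Finset.mul_sum]
  exact Finset.sum_congr rfl fun j _ => by ring

lemma coef_smooth (a : N) (i j : Fin m) :
    ContDiffOn ℝ ∞ (fun z => coef gR a z i j) (chartAt (Euc m) a).target := by
  let : RiemannianBundle fun x : N => TangentSpace (𝓡 m) x := ⟨gR.toRiemannianMetric⟩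
  intro z hz
  have hs : ContMDiffAt (𝓡 m) (𝓡 m) ∞ (chartAt (Euc m) a).symm z :=
    (contMDiffOn_chart_symm (x := a)).contMDiffAt ((chartAt (Euc m) a).open_target.mem_nhds hz)
  have h1 : ∀ i, ContMDiffAt (𝓡 m) ((𝓡 m).prod (𝓡 m)) ∞
      (fun w => (⟨(chartAt (Euc m) a).symm w, mfderiv (𝓡 m) (𝓡 m) (chartAt (Euc m) a).symm w
        (EuclideanSpace.single i 1)⟩ : TangentBundle (𝓡 m) N)) z := fun i =>
    ContMDiffAt.clm_apply_of_inCoordinates (hs.mfderiv_const (by simp))
      (contMDiffAt_vectorSpace_iff_contDiffAt.2 contDiffAt_const) hs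
  exact (contMDiffAt_iff_contDiffAt.1 ((h1 i).inner_bundle (h1 j))).contDiffWithinAt

end R0

open R0

theorem atlasMet_of_nonpos {m : ℕ} {N : Type} [TopologicalSpace N] [ChartedSpace (Euc m) N]
    [IsManifold (𝓡 m) ∞ N]
    (gR : Bundle.ContMDiffRiemannianMetric (𝓡 m) ∞ (Euc m) fun x : N => TangentSpace (𝓡 m) x)
    (h : NonposCurv gR) : ∃ g Γ, AtlasMet (E := Euc m) (N := N) g Γ := by
  refine ⟨fun a => gOf (coef gR a), fun a z => cOf fun i j k => chr (coef gR a) i j k z,
    fun a => ?_, fun a b x ha hb => ?_⟩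
  · refine chartMet_of_matrix (chartAt (Euc m) a).open_target (coef_smooth gR a)
      (fun z i j => gR.symm _ _ _) (fun z hz u hu => ?_) (h a)
    rw [gOf_coef]
    refine gR.pos _ _ fun h0 => hu ?_
    have hi := (mdifferentiable_chart (I := 𝓡 m) a).symm.mfderiv_injective (x := z) hz
    exact hi (h0.trans (map_zero (ds a z)).symm)
  · have hda := (mdifferentiable_chart (I := 𝓡 m) a).mdifferentiableAt ha
    have hdb := (mdifferentiable_chart (I := 𝓡 m) b).mdifferentiableAt_symm
      ((chartAt (Euc m) b).map_source hb)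
    have hx : (chartAt (Euc m) b).symm (chartAt (Euc m) b x) = x := (chartAt (Euc m) b).left_inv hb
    have hx' : (chartAt (Euc m) a).symm (chartAt (Euc m) a x) = x :=
      (chartAt (Euc m) a).left_inv ha
    let B : Euc m →L[ℝ] Euc m := mfderiv (𝓡 m) (𝓡 m) (chartAt (Euc m) a) x
    have hB : HasMFDerivAt (𝓡 m) (𝓡 m) (chartAt (Euc m) a)
        ((chartAt (Euc m) b).symm (chartAt (Euc m) b x)) B := by
      rw [hx]
      exact hda.hasMFDerivAt
    refine ⟨B.comp (ds b (chartAt (Euc m) b x)),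
      hasMFDerivAt_iff_hasFDerivAt.1 (hB.comp _ hdb.hasMFDerivAt), fun u => ?_⟩
    have hc : ∀ w, ds a (chartAt (Euc m) a x) (B w) = w := fun w =>
      DFunLike.congr_fun ((mdifferentiable_chart (I := 𝓡 m) a).symm_comp_deriv ha) w
    simp only [gOf_coef, ContinuousLinearMap.comp_apply, hc, hx, hx']

end Pool.Agent.Lib.MP_c2693b_gt
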