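import Pool.Agent.Lib.MP_c2693b_gt.Ob.RDefs

/-! From the coefficients of a metric to the bilinear chart data. -/

open Set Topology Metric
open scoped ContDiff

namespace Pool.Agent.Lib.MP_c2693b_gt.R0

variable {m : ℕ}

/-- The bilinear form `u i * v j`. -/
noncomputable def b2 (i j : Fin m) : Euc m →L[ℝ] Euc m →L[ℝ] ℝ :=
  (EuclideanSpace.proj i : Euc m →L[ℝ] ℝ).smulRight (EuclideanSpace.proj j : Euc m →L[ℝ] ℝ)

/-- The bilinear map `(u j * v k) • e i`. -/
noncomputable def b3 (i j k : Fin m) : Euc m →L[ℝ] Euc m →L[ℝ] Euc m :=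
  (EuclideanSpace.proj j : Euc m →L[ℝ] ℝ).smulRight
    ((EuclideanSpace.proj k : Euc m →L[ℝ] ℝ).smulRight (EuclideanSpace.single i (1 : ℝ)))

lemma b2_apply (i j : Fin m) (u v : Euc m) : b2 i j u v = u i * v j := by
  simp [b2]

lemma b3_apply (i j k s : Fin m) (u v : Euc m) :
    b3 i j k u v s = if s = i then u j * v k else 0 := by
  by_cases h : s = i <;> simp [b3, h]

/-- The metric as a bilinear form. -/
noncomputable def gOf (G : Euc m → Matrix (Fin m) (Fin m) ℝ) (z : Euc m) :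
    Euc m →L[ℝ] Euc m →L[ℝ] ℝ := ∑ i, ∑ j, G z i j • b2 i j

/-- A family of coefficients as a bilinear map. -/
noncomputable def cOf (c : Fin m → Fin m → Fin m → ℝ) : Euc m →L[ℝ] Euc m →L[ℝ] Euc m :=
  ∑ i, ∑ j, ∑ k, c i j k • b3 i j k

lemma gOf_apply (G : Euc m → Matrix (Fin m) (Fin m) ℝ) (z u v : Euc m) :
    gOf G z u v = ∑ i, ∑ j, G z i j * (u i * v j) := by
  simp [gOf, b2_apply]

lemma cOf_apply (c : Fin m → Fin m → Fin m → ℝ) (u v : Euc m) (s : Fin m) :
    cOf c u v s = ∑ j, ∑ k, c s j k * (u j * v k) := by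
  simp only [cOf, sum_apply, smul_apply, WithLp.ofLp_sum,
    Finset.sum_apply, PiLp.smul_apply, b3_apply, smul_eq_mul]
  rw [Finset.sum_eq_single s]
  · simp
  · intro i _ hi
    simp [hi.symm]
  · simp

lemma fderiv_eq_sum (F : Euc m → ℝ) (z u : Euc m) : fderiv ℝ F z u = ∑ l, u l * pd l F z := by
  have h : u = ∑ l, u l • EuclideanSpace.single l (1 : ℝ) := by
    ext i
    simp [Finset.sum_apply, Pi.single_apply]
  conv_lhs => rw [h]
  simp [pd, map_sum]

lemma contDiffOn_det {U : Set (Euc m)} {A : Euc m → Matrix (Fin m) (Fin m) ℝ}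
    (h : ∀ i j, ContDiffOn ℝ ∞ (fun z => A z i j) U) :
    ContDiffOn ℝ ∞ (fun z => (A z).det) U := by
  simp only [Matrix.det_apply']
  exact ContDiffOn.sum fun σ _ => contDiffOn_const.mul (contDiffOn_prod fun i _ => h _ _)

lemma contDiffOn_inv {U : Set (Euc m)} {A : Euc m → Matrix (Fin m) (Fin m) ℝ}
    (h : ∀ i j, ContDiffOn ℝ ∞ (fun z => A z i j) U) (hd : ∀ z ∈ U, (A z).det ≠ 0) (i j : Fin m) :
    ContDiffOn ℝ ∞ (fun z => (A z)⁻¹ i j) U := by
  simp only [Matrix.inv_def, Ring.inverse_eq_inv', Matrix.smul_apply, smul_eq_mul,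
    Matrix.adjugate_apply]
  refine ((contDiffOn_det h).inv hd).mul (contDiffOn_det fun a b => ?_)
  simp only [Matrix.updateRow_apply]
  by_cases hab : a = j
  · simp only [hab, if_true]
    exact contDiffOn_const
  · simp only [hab, if_false]
    exact h _ _

lemma contDiffOn_pd {U : Set (Euc m)} (hU : IsOpen U) {F : Euc m → ℝ}
    (h : ContDiffOn ℝ ∞ F U) (l : Fin m) : ContDiffOn ℝ ∞ (pd l F) U :=
  (h.fderiv_of_isOpen hU (by simp)).clm_apply contDiffOn_const

lemma contDiffOn_chr {U : Set (Euc m)} (hU : IsOpen U) {G : Euc m → Matrix (Fin m) (Fin m) ℝ}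
    (h : ∀ i j, ContDiffOn ℝ ∞ (fun z => G z i j) U) (hd : ∀ z ∈ U, (G z).det ≠ 0)
    (i j k : Fin m) : ContDiffOn ℝ ∞ (chr G i j k) U := by
  unfold chr
  exact contDiffOn_const.mul (ContDiffOn.sum fun l _ => (contDiffOn_inv h hd i l).mul
    (((contDiffOn_pd hU (h _ _) _).add (contDiffOn_pd hU (h _ _) _)).sub
      (contDiffOn_pd hU (h _ _) _)))

section

variable {F : Type} [NormedAddCommGroup F] [NormedSpace ℝ F]

lemma fd2 {c : Fin m → Fin m → Euc m → ℝ} {z : Euc m} (b : Fin m → Fin m → F)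
    (h : ∀ i j, DifferentiableAt ℝ (c i j) z) (u : Euc m) :
    fderiv ℝ (fun y => ∑ i, ∑ j, c i j y • b i j) z u =
      ∑ i, ∑ j, (∑ l, u l * pd l (c i j) z) • b i j := by
  have h1 : HasFDerivAt (fun y => ∑ i, ∑ j, c i j y • b i j)
      (∑ i, ∑ j, (fderiv ℝ (c i j) z).smulRight (b i j)) z :=
    HasFDerivAt.fun_sum fun i _ => HasFDerivAt.fun_sum fun j _ =>
      (h i j).hasFDerivAt.smul_const _
  rw [h1.fderiv]
  simp [fderiv_eq_sum]

lemma fd3 {c : Fin m → Fin m → Fin m → Euc m → ℝ} {z : Euc m} (b : Fin m → Fin m → Fin m → F)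
    (h : ∀ i j k, DifferentiableAt ℝ (c i j k) z) (u : Euc m) :
    fderiv ℝ (fun y => ∑ i, ∑ j, ∑ k, c i j k y • b i j k) z u =
      ∑ i, ∑ j, ∑ k, (∑ l, u l * pd l (c i j k) z) • b i j k := by
  have h1 : HasFDerivAt (fun y => ∑ i, ∑ j, ∑ k, c i j k y • b i j k)
      (∑ i, ∑ j, ∑ k, (fderiv ℝ (c i j k) z).smulRight (b i j k)) z :=
    HasFDerivAt.fun_sum fun i _ => HasFDerivAt.fun_sum fun j _ =>
      HasFDerivAt.fun_sum fun k _ => (h i j k).hasFDerivAt.smul_const _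
  rw [h1.fderiv]
  simp [fderiv_eq_sum]

lemma two_le : (2 : WithTop ℕ∞) ≤ ∞ := by
  change ((2 : ℕ∞) : WithTop ℕ∞) ≤ ((⊤ : ℕ∞) : WithTop ℕ∞)
  exact_mod_cast le_top

lemma cd2 {c : Fin m → Fin m → Euc m → ℝ} {U : Set (Euc m)} (b : Fin m → Fin m → F)
    (h : ∀ i j, ContDiffOn ℝ ∞ (c i j) U) :
    ContDiffOn ℝ 2 (fun y => ∑ i, ∑ j, c i j y • b i j) U :=
  ContDiffOn.sum fun i _ => ContDiffOn.sum fun j _ =>
    ((h i j).of_le two_le).smul contDiffOn_const

lemma cd3 {c : Fin m → Fin m → Fin m → Euc m → ℝ} {U : Set (Euc m)}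
    (b : Fin m → Fin m → Fin m → F) (h : ∀ i j k, ContDiffOn ℝ ∞ (c i j k) U) :
    ContDiffOn ℝ 2 (fun y => ∑ i, ∑ j, ∑ k, c i j k y • b i j k) U :=
  ContDiffOn.sum fun i _ => ContDiffOn.sum fun j _ => ContDiffOn.sum fun k _ =>
    ((h i j k).of_le two_le).smul contDiffOn_const

end

lemma fderiv_gOf {G : Euc m → Matrix (Fin m) (Fin m) ℝ} {z : Euc m}
    (h : ∀ i j, DifferentiableAt ℝ (fun w => G w i j) z) (u v w : Euc m) :
    fderiv ℝ (gOf G) z u v w =
      ∑ i, ∑ j, (∑ l, u l * pd l (fun y => G y i j) z) * (v i * w j) := by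
  have h1 : fderiv ℝ (gOf G) z u = ∑ i, ∑ j, (∑ l, u l * pd l (fun y => G y i j) z) • b2 i j :=
    fd2 (F := Euc m →L[ℝ] Euc m →L[ℝ] ℝ) (c := fun i j y => G y i j) b2 h u
  rw [h1]
  simp [b2_apply]

lemma fderiv_cOf {c : Fin m → Fin m → Fin m → Euc m → ℝ} {z : Euc m}
    (h : ∀ i j k, DifferentiableAt ℝ (c i j k) z) (u : Euc m) :
    fderiv ℝ (fun y => cOf fun i j k => c i j k y) z u =
      cOf fun i j k => ∑ l, u l * pd l (c i j k) z :=
  fd3 (F := Euc m →L[ℝ] Euc m →L[ℝ] Euc m) b3 h u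

lemma low_chr {G : Euc m → Matrix (Fin m) (Fin m) ℝ} {z : Euc m} (hd : (G z).det ≠ 0)
    (s j k : Fin m) : ∑ i, G z s i * chr G i j k z = 1 / 2 *
      (pd j (fun w => G w s k) z + pd k (fun w => G w s j) z - pd s (fun w => G w j k) z) := by
  have h1 : G z * (G z)⁻¹ = 1 := Matrix.mul_nonsing_inv _ (isUnit_iff_ne_zero.2 hd)
  have h2 : ∀ l, ∑ i, G z s i * (G z)⁻¹ i l = if s = l then 1 else 0 := fun l => by
    rw [← Matrix.mul_apply, h1, Matrix.one_apply]
  simp only [chr, Finset.mul_sum]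
  rw [Finset.sum_comm]
  have h3 : ∀ l, ∑ i, G z s i * (1 / 2 * ((G z)⁻¹ i l * (pd j (fun w => G w l k) z +
      pd k (fun w => G w l j) z - pd l (fun w => G w j k) z))) =
      (∑ i, G z s i * (G z)⁻¹ i l) * (1 / 2 * (pd j (fun w => G w l k) z +
      pd k (fun w => G w l j) z - pd l (fun w => G w j k) z)) := fun l => by
    rw [Finset.sum_mul]
    exact Finset.sum_congr rfl fun i _ => by ring
  simp only [h3, h2]
  simp

lemma sum3 (f : Fin m → Fin m → Fin m → ℝ) :
    ∑ a, ∑ b, ∑ c, f a b c = ∑ b, ∑ c, ∑ a, f a b c := by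
  rw [Finset.sum_comm]
  exact Finset.sum_congr rfl fun b _ => Finset.sum_comm

lemma sum4 (f : Fin m → Fin m → Fin m → Fin m → ℝ) :
    ∑ a, ∑ b, ∑ c, ∑ d, f a b c d = ∑ d, ∑ a, ∑ b, ∑ c, f a b c d := by
  rw [Finset.sum_comm (f := fun d a => ∑ b, ∑ c, f a b c d)]
  exact Finset.sum_congr rfl fun a _ => (sum3 fun d b c => f a b c d).symm

lemma g_c (G : Euc m → Matrix (Fin m) (Fin m) ℝ) (c : Fin m → Fin m → Fin m → ℝ)
    (z u v w : Euc m) : gOf G z w (cOf c u v) =
      ∑ j, ∑ k, ∑ s, (∑ i, G z s i * c i j k) * (u j * v k * w s) := by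
  rw [gOf_apply, ← sum3]
  refine Finset.sum_congr rfl fun s _ => ?_
  simp only [cOf_apply, Finset.mul_sum, Finset.sum_mul]
  rw [sum3]
  refine Finset.sum_congr rfl fun j _ => Finset.sum_congr rfl fun k _ =>
    Finset.sum_congr rfl fun i _ => by ring

lemma gOf_symm {G : Euc m → Matrix (Fin m) (Fin m) ℝ} (hs : ∀ z i j, G z i j = G z j i)
    (z u v : Euc m) : gOf G z u v = gOf G z v u := by
  rw [gOf_apply, gOf_apply, Finset.sum_comm]
  exact Finset.sum_congr rfl fun i _ => Finset.sum_congr rfl fun j _ => by rw [hs]; ring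

lemma det_ne {G : Euc m → Matrix (Fin m) (Fin m) ℝ} {z : Euc m}
    (hp : ∀ u, u ≠ 0 → 0 < gOf G z u u) : (G z).det ≠ 0 := by
  intro h0
  obtain ⟨v, hv, h⟩ := Matrix.exists_mulVec_eq_zero_iff.2 h0
  have h1 := hp (WithLp.toLp 2 v) (by simpa using hv)
  rw [gOf_apply] at h1
  have h2 : ∀ i, ∑ j, G z i j * (v i * v j) = 0 := fun i => by
    have h3 : ∑ j, G z i j * v j = 0 := congrFun h i
    calc ∑ j, G z i j * (v i * v j) = v i * ∑ j, G z i j * v j := by
          rw [Finset.mul_sum]; exact Finset.sum_congr rfl fun j _ => by ring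
      _ = 0 := by rw [h3, mul_zero]
  simp [h2] at h1

theorem chartMet_of_matrix {U : Set (Euc m)} (hU : IsOpen U)
    {G : Euc m → Matrix (Fin m) (Fin m) ℝ}
    (h : ∀ i j, ContDiffOn ℝ ∞ (fun z => G z i j) U) (hs : ∀ z i j, G z i j = G z j i)
    (hp : ∀ z ∈ U, ∀ u, u ≠ 0 → 0 < gOf G z u u)
    (hc : ∀ z ∈ U, ∀ u v, secNum G z u v ≤ 0) :
    ChartMet U (gOf G) (fun z => cOf fun i j k => chr G i j k z) := by
  have hd : ∀ z ∈ U, (G z).det ≠ 0 := fun z hz => det_ne (hp z hz)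
  have hch := contDiffOn_chr hU h hd
  have hsf : ∀ i j, (fun w => G w i j) = fun w => G w j i := fun i j => funext fun w => hs w i j
  have hcs : ∀ i j k z, chr G i j k z = chr G i k j z := fun i j k z => by
    unfold chr
    congr 1
    exact Finset.sum_congr rfl fun l _ => by rw [hsf j k]; ring
  refine ⟨hU, ?_, ?_, fun z _ => gOf_symm hs z, hp, ?_, ?_, ?_⟩
  · exact cd2 (F := Euc m →L[ℝ] Euc m →L[ℝ] ℝ) (c := fun i j y => G y i j) b2 h
  · exact cd3 (F := Euc m →L[ℝ] Euc m →L[ℝ] Euc m) b3 hch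
  · intro z _ u v
    ext s
    rw [cOf_apply, cOf_apply, Finset.sum_comm]
    exact Finset.sum_congr rfl fun i _ => Finset.sum_congr rfl fun j _ => by rw [hcs]; ring
  · intro z hz u v w
    rw [fderiv_gOf (fun i j => ((h i j).contDiffAt (hU.mem_nhds hz)).differentiableAt (by simp)),
      gOf_symm hs z (cOf _ u v), g_c, g_c]
    simp only [low_chr (hd z hz), Finset.sum_mul]
    rw [← sum3, ← Finset.sum_add_distrib]
    refine Finset.sum_congr rfl fun l _ => ?_
    rw [Finset.sum_comm (f := fun k s => _ * (u l * w k * v s)), ← Finset.sum_add_distrib]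
    refine Finset.sum_congr rfl fun i _ => ?_
    rw [← Finset.sum_add_distrib]
    refine Finset.sum_congr rfl fun j _ => ?_
    rw [hsf j i, hsf j l, hsf i l]
    ring
  · intro z hz u v
    have hdf := fun i j k => ((hch i j k).contDiffAt (hU.mem_nhds hz)).differentiableAt (by simp)
    rw [gOf_symm hs, fderiv_cOf hdf, fderiv_cOf hdf, gOf_apply]
    refine le_of_eq_of_le ?_ (hc z hz u v)
    unfold secNum
    refine Finset.sum_congr rfl fun s _ => Finset.sum_congr rfl fun i _ => ?_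
    simp only [← Finset.mul_sum]
    rw [mul_assoc]
    congr 2
    simp only [PiLp.add_apply, PiLp.sub_apply, cOf_apply, riem, Finset.sum_mul, Finset.mul_sum,
      add_mul, sub_mul, Finset.sum_add_distrib, Finset.sum_sub_distrib]
    rw [add_sub_assoc]
    congr 1 <;> congr 1
    · rw [sum3]
      exact Finset.sum_congr rfl fun j _ => Finset.sum_congr rfl fun k _ =>
        Finset.sum_congr rfl fun l _ => by ring
    · rw [Finset.sum_comm]
      exact Finset.sum_congr rfl fun j _ => Finset.sum_congr rfl fun k _ =>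
        Finset.sum_congr rfl fun l _ => by ring
    · rw [sum4]
      refine Finset.sum_congr rfl fun j _ => Finset.sum_congr rfl fun k _ => ?_
      rw [Finset.sum_comm]
      exact Finset.sum_congr rfl fun l _ => Finset.sum_congr rfl fun a _ => by ring
    · rw [sum4]
      refine Finset.sum_congr rfl fun j _ => ?_
      rw [← sum3 fun k l a => chr G i l a z * (v l * (chr G a k j z * (u k * v j)))]
      exact Finset.sum_congr rfl fun k _ => Finset.sum_congr rfl fun l _ =>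
        Finset.sum_congr rfl fun a _ => by ring

end Pool.Agent.Lib.MP_c2693b_gt.R0
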