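import Pool.Agent.Lib.MP_c2693b_gt.Defs

/-! The coefficients of a Riemannian metric in a chart: smoothness, symmetry, positivity and the
change of chart. -/

set_option autoImplicit false

open Set Topology Bundle
open scoped Manifold ContDiff

namespace Pool.Agent.Lib.MP_c2693b_gt.R0b

variable {m : ℕ} {N : Type} [TopologicalSpace N] [ChartedSpace (Euc m) N] [IsManifold (𝓡 m) ∞ N]
  (g : Bundle.ContMDiffRiemannianMetric (𝓡 m) ∞ (Euc m) fun x : N => TangentSpace (𝓡 m) x)

/-- The metric at a point as a bilinear form on the model space. -/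
noncomputable def inn (x : N) : Euc m →L[ℝ] Euc m →L[ℝ] ℝ := g.inner x

/-- The derivative of the inverse chart. -/
noncomputable def dch (a : N) (z : Euc m) : Euc m →L[ℝ] Euc m :=
  mfderiv (𝓡 m) (𝓡 m) (chartAt (Euc m) a).symm z

theorem coef_eq (a : N) (z : Euc m) (i j : Fin m) : coef g a z i j =
    inn g ((chartAt (Euc m) a).symm z) (dch a z (EuclideanSpace.single i 1))
      (dch a z (EuclideanSpace.single j 1)) := rfl

theorem sum_single (u : Euc m) : ∑ i, u i • (EuclideanSpace.single i (1 : ℝ) : Euc m) = u := by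
  ext k
  simp [Pi.single_apply]

theorem coef_sum (a : N) (z u v : Euc m) : ∑ i, ∑ j, coef g a z i j * u i * v j =
    inn g ((chartAt (Euc m) a).symm z) (dch a z u) (dch a z v) := by
  conv_rhs => rw [← sum_single u, ← sum_single v]
  simp only [map_sum, map_smul, sum_apply, smul_apply,
    smul_eq_mul, coef_eq, Finset.mul_sum]
  rw [Finset.sum_comm]
  refine Finset.sum_congr rfl fun i _ => Finset.sum_congr rfl fun j _ => ?_
  ring

theorem coef_symm (a : N) (z : Euc m) (i j : Fin m) : coef g a z i j = coef g a z j i :=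
  g.symm _ _ _

theorem dch_inj (a : N) {z : Euc m} (hz : z ∈ (chartAt (Euc m) a).target) :
    Function.Injective (dch a z) :=
  (mdifferentiable_chart (I := 𝓡 m) a).symm.mfderiv_injective (x := z) hz

theorem coef_pos (a : N) {z : Euc m} (hz : z ∈ (chartAt (Euc m) a).target) (u : Euc m)
    (hu : u ≠ 0) : 0 < ∑ i, ∑ j, coef g a z i j * u i * u j := by
  rw [coef_sum]
  refine g.pos _ _ fun h => hu (dch_inj a hz ?_)
  rw [map_zero]
  exact h

theorem field_smooth (a : N) (w : Euc m) :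
    ContMDiffOn (𝓡 m) ((𝓡 m).prod 𝓘(ℝ, Euc m)) ∞
      (fun z : Euc m => TotalSpace.mk' (Euc m) (E := fun x : N => TangentSpace (𝓡 m) x)
        ((chartAt (Euc m) a).symm z) (mfderiv (𝓡 m) (𝓡 m) (chartAt (Euc m) a).symm z w))
      (chartAt (Euc m) a).target := by
  have ho := (chartAt (Euc m) a).open_target
  have h1 := (contMDiffOn_chart_symm (I := 𝓡 m) (n := ∞) (x := a)).contMDiffOn_tangentMapWithin
    (m := ∞) (by simp) ho.uniqueMDiffOn
  have h2 : ContMDiff (𝓡 m) (𝓡 m).tangent ∞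
      (fun z : Euc m => (TotalSpace.mk' (Euc m) z w : TangentBundle (𝓡 m) (Euc m))) :=
    contMDiff_vectorSpace_iff_contDiff.2 contDiff_const
  have h3 := h1.comp (s := (chartAt (Euc m) a).target) h2.contMDiffOn fun z hz => hz
  refine h3.congr fun z hz => ?_
  simp only [Function.comp_apply, tangentMapWithin]
  rw [mfderivWithin_of_isOpen ho hz]

theorem coef_smooth (a : N) (i j : Fin m) :
    ContDiffOn ℝ ∞ (fun z => coef g a z i j) (chartAt (Euc m) a).target := by
  have h0 := g.contMDiff.comp_contMDiffOn (contMDiffOn_chart_symm (I := 𝓡 m) (n := ∞) (x := a))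
  have h1 := ContMDiffOn.clm_bundle_apply₂ (F₃ := ℝ) (E₃ := fun _ : N => ℝ)
    (b := (chartAt (Euc m) a).symm) (ψ := fun z => g.inner ((chartAt (Euc m) a).symm z)) h0
    (field_smooth a (EuclideanSpace.single i 1)) (field_smooth a (EuclideanSpace.single j 1))
  rw [← contMDiffOn_iff_contDiffOn]
  intro z hz
  have h2 := h1 z hz
  rw [contMDiffWithinAt_totalSpace] at h2
  exact h2.2

theorem coef_chg (a b x : N) (ha : x ∈ (chartAt (Euc m) a).source)
    (hb : x ∈ (chartAt (Euc m) b).source) : ∃ A : Euc m →L[ℝ] Euc m,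
    HasFDerivAt (chartAt (Euc m) a ∘ (chartAt (Euc m) b).symm) A (chartAt (Euc m) b x) ∧
      ∀ u v : Euc m, ∑ i, ∑ j, coef g b (chartAt (Euc m) b x) i j * u i * v j =
        ∑ i, ∑ j, coef g a (chartAt (Euc m) a x) i j * A u i * A v j := by
  set φ := chartAt (Euc m) a with hφ
  set ψ := chartAt (Euc m) b with hψ
  have e1 : ψ.symm (ψ x) = x := ψ.left_inv hb
  have e2 : φ.symm (φ x) = x := φ.left_inv ha
  have d1 : MDifferentiableAt (𝓡 m) (𝓡 m) ψ.symm (ψ x) :=
    (mdifferentiable_chart (I := 𝓡 m) b).mdifferentiableAt_symm (ψ.map_source hb)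
  have d2 : MDifferentiableAt (𝓡 m) (𝓡 m) φ (ψ.symm (ψ x)) := by
    rw [e1]; exact (mdifferentiable_chart (I := 𝓡 m) a).mdifferentiableAt ha
  have d3 : MDifferentiableAt (𝓡 m) (𝓡 m) (φ ∘ ψ.symm) (ψ x) := d2.comp _ d1
  have e3 : (φ ∘ ψ.symm) (ψ x) = φ x := by rw [Function.comp_apply, e1]
  have d4 : MDifferentiableAt (𝓡 m) (𝓡 m) φ.symm ((φ ∘ ψ.symm) (ψ x)) := by
    rw [e3]; exact (mdifferentiable_chart (I := 𝓡 m) a).mdifferentiableAt_symm (φ.map_source ha)
  have d5 : DifferentiableAt ℝ (φ ∘ ψ.symm) (ψ x) := mdifferentiableAt_iff_differentiableAt.1 d3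
  refine ⟨fderiv ℝ (φ ∘ ψ.symm) (ψ x), d5.hasFDerivAt, fun u v => ?_⟩
  have ev : (ψ.symm : Euc m → N) =ᶠ[𝓝 (ψ x)] φ.symm ∘ (φ ∘ ψ.symm) := by
    have hc : ContinuousAt ψ.symm (ψ x) := ψ.continuousAt_symm (ψ.map_source hb)
    have : ψ.symm ⁻¹' φ.source ∈ 𝓝 (ψ x) := hc (by rw [e1]; exact φ.open_source.mem_nhds ha)
    filter_upwards [this] with z hz
    exact (φ.left_inv hz).symm
  have key : dch b (ψ x) = (dch a (φ x)).comp (fderiv ℝ (φ ∘ ψ.symm) (ψ x)) := by
    have h1 := ev.mfderiv_eq (I := 𝓡 m) (I' := 𝓡 m)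
    have h2 := mfderiv_comp (I := 𝓡 m) (I' := 𝓡 m) (I'' := 𝓡 m) (ψ x) d4 d3
    have h3 : dch a ((φ ∘ ψ.symm) (ψ x)) = dch a (φ x) := by rw [e3]
    rw [← h3, ← mfderiv_eq_fderiv]
    exact h1.trans h2
  rw [coef_sum, coef_sum, ← hφ, ← hψ, e1, e2, key]
  rfl

end Pool.Agent.Lib.MP_c2693b_gt.R0b
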