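import Pool.Agent.Lib.MP_c2693b_gt.Ob.R4a

/-! The distance of a Riemannian manifold as a supremum over admissible functions. -/

open Set Topology Metric Filter
open scoped RealInnerProductSpace

namespace Pool.Agent.Lib.MP_c2693b_gt

namespace R4

variable {m : ℕ} {N : Type} [TopologicalSpace N] [ChartedSpace (Euc m) N]
  {g : N → Euc m → Euc m →L[ℝ] Euc m →L[ℝ] ℝ} {Γ : N → Euc m → Euc m →L[ℝ] Euc m →L[ℝ] Euc m}

/-- Admissible functions. -/
def Adm (g : N → Euc m → Euc m →L[ℝ] Euc m →L[ℝ] ℝ) (f : N → ℝ) : Prop :=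
  (∀ x, f x ∈ Icc (0 : ℝ) 1) ∧ ∀ a, ∀ z ∈ (chartAt (Euc m) a).target,
    IL (g a z) (f ∘ (chartAt (Euc m) a).symm) z

lemma adm_zero : Adm g fun _ => 0 := ⟨fun _ => ⟨le_rfl, zero_le_one⟩, fun _ _ _ => il_const 0⟩

/-- The distance. -/
noncomputable def dd (g : N → Euc m → Euc m →L[ℝ] Euc m →L[ℝ] ℝ) (x y : N) : ℝ :=
  ⨆ f : {f : N → ℝ // Adm g f}, |f.1 x - f.1 y|

lemma dd_le {x y : N} {K : ℝ} (h : ∀ f, Adm g f → |f x - f y| ≤ K) : dd g x y ≤ K :=
  haveI : Nonempty {f : N → ℝ // Adm g f} := ⟨⟨_, adm_zero⟩⟩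
  ciSup_le fun f => h f.1 f.2

lemma le_dd {f : N → ℝ} (hf : Adm g f) (x y : N) : |f x - f y| ≤ dd g x y := by
  refine le_ciSup (f := fun f : {f : N → ℝ // Adm g f} => |f.1 x - f.1 y|) ⟨1, ?_⟩ ⟨f, hf⟩
  rintro _ ⟨f, rfl⟩
  have h1 := f.2.1 x
  have h2 := f.2.1 y
  exact abs_le.2 ⟨by linarith [h1.1, h2.2], by linarith [h1.2, h2.1]⟩

lemma dd_nonneg (x y : N) : 0 ≤ dd g x y := (abs_nonneg _).trans (le_dd adm_zero x y)

lemma dd_self (x : N) : dd g x x = 0 := le_antisymm (dd_le fun f _ => by simp) (dd_nonneg x x)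

lemma dd_comm (x y : N) : dd g x y = dd g y x := by
  simp only [dd, abs_sub_comm]

lemma dd_tri (x y z : N) : dd g x z ≤ dd g x y + dd g y z :=
  dd_le fun _ hf => (abs_sub_le _ _ _).trans (add_le_add (le_dd hf x y) (le_dd hf y z))

variable {a : N} {x0 : Euc m} {r c : ℝ} {γ v : Euc m → Euc m → ℝ → Euc m}
  {en : Euc m → Euc m → ℝ}

lemma fac (h : AtlasMet g Γ) {z : Euc m} (hz : z ∈ (chartAt (Euc m) a).target) :
    ∃ A : Euc m →L[ℝ] Euc m, ∀ u v, g a z u v = ⟪A u, A v⟫ :=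
  exists_fac _ ((h.met a).symm z hz) ((h.met a).pos z hz)

lemma geo_mem (G : ChartGeo (chartAt (Euc m) a).target (g a) x0 r c γ v en) {p q : Euc m}
    (hp : p ∈ ball x0 r) (hq : q ∈ ball x0 r) {t : ℝ} (ht : t ∈ Icc (0 : ℝ) 1) :
    γ p q t ∈ (chartAt (Euc m) a).target := by
  refine G.sub (mem_closedBall_iff_norm.2 ?_)
  have h1 := G.near p hp q hq t ht
  have h2 := mem_ball_iff_norm.1 hp
  have h3 := mem_ball_iff_norm.1 hq
  have h4 : ‖q - p‖ ≤ ‖q - x0‖ + ‖p - x0‖ := by
    simpa using norm_sub_le (q - x0) (p - x0)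
  have h5 : ‖γ p q t - x0‖ ≤ ‖γ p q t - p‖ + ‖p - x0‖ := norm_sub_le_norm_sub_add_norm_sub _ _ _
  linarith [G.rpos]

lemma ball_sub (G : ChartGeo (chartAt (Euc m) a).target (g a) x0 r c γ v en) :
    closedBall x0 r ⊆ (chartAt (Euc m) a).target :=
  (closedBall_subset_closedBall (by linarith [G.rpos])).trans G.sub

lemma en_nonneg (G : ChartGeo (chartAt (Euc m) a).target (g a) x0 r c γ v en) {p q : Euc m}
    (hp : p ∈ ball x0 r) (hq : q ∈ ball x0 r) : 0 ≤ en p q :=
  nonneg_of_mul_nonneg_right ((sq_nonneg _).trans (G.low p hp q hq)) G.cpos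

lemma upper (h : AtlasMet g Γ) (G : ChartGeo (chartAt (Euc m) a).target (g a) x0 r c γ v en)
    {p q : Euc m} (hp : p ∈ ball x0 r) (hq : q ∈ ball x0 r) {s t : ℝ} (hs : s ∈ Icc (0 : ℝ) 1)
    (ht : t ∈ Icc (0 : ℝ) 1) :
    dd g ((chartAt (Euc m) a).symm (γ p q s)) ((chartAt (Euc m) a).symm (γ p q t)) ≤
      |s - t| * √(en p q) := by
  refine dd_le fun f hf => abs_le_of_loc
    (f := fun t => f ((chartAt (Euc m) a).symm (γ p q t))) (fun ε hε u hu => ?_) hs ht
  have hm := geo_mem G hp hq hu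
  obtain ⟨A, hA⟩ := fac h hm
  filter_upwards [(hf.2 a _ hm).comp hA (G.der p hp q hq u hu).hasFDerivWithinAt hε] with w hw
  refine hw.trans (le_of_eq ?_)
  rw [← G.speed p hp q hq u hu, sqrt_fac hA, sqrt_fac hA,
    ContinuousLinearMap.toSpanSingleton_apply, map_smul, norm_smul, Real.norm_eq_abs]
  ring

lemma il_bump (h : AtlasMet g Γ) (G : ChartGeo (chartAt (Euc m) a).target (g a) x0 r c γ v en)
    {p q : Euc m} (hp : p ∈ ball x0 r) (hq : q ∈ ball x0 r) {η : ℝ} (hη : 0 < η) :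
    IL (g a q) (fun w => √(en p w + η ^ 2) - η) q := by
  have he := en_nonneg G hp hq
  have hpos : 0 < en p q + η ^ 2 := by positivity
  obtain ⟨A, hA⟩ := fac h (ball_sub G (ball_subset_closedBall hq))
  refine il_of_deriv ((((G.var p hp q hq).add_const (η ^ 2)).sqrt hpos.ne').sub_const η)
    fun u => ?_
  have h1 := G.speed p hp q hq 1 ⟨zero_le_one, le_rfl⟩
  rw [G.one p hp q hq] at h1
  have h2 : ‖A (v p q 1)‖ ≤ √(en p q + η ^ 2) := by
    rw [← sqrt_fac hA, h1]
    exact Real.sqrt_le_sqrt (by nlinarith)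
  have h3 : 0 < √(en p q + η ^ 2) := Real.sqrt_pos.2 hpos
  have h4 : |⟪A (v p q 1), A u⟫| ≤ √(en p q + η ^ 2) * ‖A u‖ :=
    (abs_real_inner_le_norm _ _).trans (by gcongr)
  simp only [smul_apply, smul_eq_mul, hA]
  rw [← hA u u, sqrt_fac hA, abs_mul, abs_mul, abs_of_pos (by positivity), abs_two,
    div_mul_eq_mul_div, div_le_iff₀ (by positivity)]
  linarith

open Classical in
/-- The cut off local distance function. -/
noncomputable def bump (a : N) (x0 : Euc m) (r : ℝ) (ψ : Euc m → ℝ) (k : ℝ) (x : N) : ℝ :=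
  if x ∈ (chartAt (Euc m) a).source ∩ chartAt (Euc m) a ⁻¹' ball x0 r then
    min (ψ (chartAt (Euc m) a x)) k else k

lemma adm_bump [T2Space N] (h : AtlasMet g Γ)
    (G : ChartGeo (chartAt (Euc m) a).target (g a) x0 r c γ v en) {p : Euc m}
    (hp : p ∈ ball x0 (r / 4)) {η k : ℝ} (hη : 0 < η) (hk : η ≤ k) (hk1 : k ≤ 1)
    (hk2 : c * (2 * k) ^ 2 ≤ (r / 4) ^ 2) :
    Adm g (bump a x0 r (fun w => √(en p w + η ^ 2) - η) k) := by
  have hr := G.rpos
  have hp' : p ∈ ball x0 r := ball_subset_ball (by linarith) hp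
  refine ⟨fun x => ?_, fun b z hz => ?_⟩
  · unfold bump
    split_ifs with hx
    · refine ⟨le_min (sub_nonneg.2 (Real.le_sqrt_of_sq_le ?_)) (by linarith),
        (min_le_right _ _).trans hk1⟩
      linarith [en_nonneg G hp' hx.2]
    · exact ⟨by linarith, hk1⟩
  have hcont : ContinuousAt (chartAt (Euc m) b).symm z := (chartAt (Euc m) b).continuousAt_symm hz
  by_cases hx : (chartAt (Euc m) b).symm z ∈
      (chartAt (Euc m) a).source ∩ chartAt (Euc m) a ⁻¹' ball x0 r
  · obtain ⟨L, hL, hg⟩ := h.chg a b _ hx.1 ((chartAt (Euc m) b).map_target hz)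
    rw [(chartAt (Euc m) b).right_inv hz] at hL hg
    obtain ⟨A, hA⟩ := fac h ((chartAt (Euc m) a).map_source hx.1)
    have h1 := (il_bump h G hp' hx.2 hη).min_const k
    refine IL.congr (φ := (fun w => min (√(en p w + η ^ 2) - η) k) ∘
      (chartAt (Euc m) a ∘ (chartAt (Euc m) b).symm)) (fun ε hε => ?_) ?_
    · have h2 := IL.comp (s := univ) (T := chartAt (Euc m) a ∘ (chartAt (Euc m) b).symm) (y := z)
        hA h1 hL.hasFDerivWithinAt hε
      rw [nhdsWithin_univ] at h2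
      filter_upwards [h2] with w hw
      rw [hg]
      exact hw
    · filter_upwards [hcont.eventually
        (((chartAt (Euc m) a).isOpen_inter_preimage isOpen_ball).mem_nhds hx)] with w hw
      exact if_pos hw
  · have hK : IsCompact ((chartAt (Euc m) a).symm '' closedBall x0 (r / 2)) :=
      (isCompact_closedBall x0 (r / 2)).image_of_continuousOn
        ((chartAt (Euc m) a).continuousOn_symm.mono
          ((closedBall_subset_closedBall (by linarith)).trans (ball_sub G)))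
    have hn : (chartAt (Euc m) b).symm z ∉ (chartAt (Euc m) a).symm '' closedBall x0 (r / 2) := by
      rintro ⟨y, hy, e⟩
      have hy' := ball_sub G (closedBall_subset_closedBall (by linarith) hy)
      refine hx (e ▸ ⟨(chartAt (Euc m) a).map_target hy', ?_⟩)
      rw [mem_preimage, (chartAt (Euc m) a).right_inv hy']
      exact closedBall_subset_ball (by linarith) hy
    refine (il_const k).congr ?_
    filter_upwards [hcont.eventually (hK.isClosed.isOpen_compl.mem_nhds hn)] with w hw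
    simp only [Function.comp, bump]
    split_ifs with hw'
    · refine min_eq_right (le_sub_iff_add_le.2 (Real.le_sqrt_of_sq_le ?_))
      have h1 : r / 2 < ‖chartAt (Euc m) a ((chartAt (Euc m) b).symm w) - x0‖ := by
        by_contra h0
        exact hw ⟨_, mem_closedBall_iff_norm.2 (not_lt.1 h0), (chartAt (Euc m) a).left_inv hw'.1⟩
      have h2 := G.low p hp' _ hw'.2
      have h3 := norm_sub_le_norm_sub_add_norm_sub
        (chartAt (Euc m) a ((chartAt (Euc m) b).symm w)) p x0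
      have h4 := mem_ball_iff_norm.1 hp
      have h5 : (r / 4) ^ 2 ≤ ‖chartAt (Euc m) a ((chartAt (Euc m) b).symm w) - p‖ ^ 2 :=
        pow_le_pow_left₀ (by linarith) (by linarith) 2
      have h6 := le_of_mul_le_mul_left (hk2.trans (h5.trans h2)) G.cpos
      nlinarith
    · rfl

lemma local_dd [T2Space N] (h : AtlasMet g Γ)
    (G : ChartGeo (chartAt (Euc m) a).target (g a) (chartAt (Euc m) a a) r c γ v en) :
    (∀ y, y ≠ a → 0 < dd g a y) ∧ ∃ s, 0 < s ∧ s ≤ r / 4 ∧
      ∀ p ∈ ball (chartAt (Euc m) a a) s, ∀ q ∈ ball (chartAt (Euc m) a a) s,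
        dd g ((chartAt (Euc m) a).symm p) ((chartAt (Euc m) a).symm q) = √(en p q) := by
  have hr := G.rpos
  have hc := G.cpos
  have hsc : 0 < √c := Real.sqrt_pos.2 hc
  obtain ⟨k, hk0, hk1, hk2⟩ : ∃ k : ℝ, 0 < k ∧ k ≤ 1 ∧ c * (2 * k) ^ 2 ≤ (r / 4) ^ 2 := by
    refine ⟨min 1 (r / (8 * √c)), by positivity, min_le_left _ _, ?_⟩
    have h1 : min 1 (r / (8 * √c)) * (8 * √c) ≤ r :=
      (le_div_iff₀ (by positivity)).1 (min_le_right _ _)
    have h2 : (0 : ℝ) ≤ min 1 (r / (8 * √c)) * (8 * √c) := by positivity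
    have h3 := pow_le_pow_left₀ h2 h1 2
    rw [mul_pow, mul_pow, Real.sq_sqrt hc.le] at h3
    nlinarith
  have hb : ∀ {p : Euc m} {η : ℝ} {q : Euc m}, q ∈ ball (chartAt (Euc m) a a) r →
      bump a (chartAt (Euc m) a a) r (fun w => √(en p w + η ^ 2) - η) k
        ((chartAt (Euc m) a).symm q) = min (√(en p q + η ^ 2) - η) k := fun {p η q} hq => by
    have hq' := ball_sub G (ball_subset_closedBall hq)
    unfold bump
    rw [if_pos ⟨(chartAt (Euc m) a).map_target hq', by
      rwa [mem_preimage, (chartAt (Euc m) a).right_inv hq']⟩, (chartAt (Euc m) a).right_inv hq']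
  have h0 : ∀ {p : Euc m} {η : ℝ}, 0 < η → p ∈ ball (chartAt (Euc m) a a) r →
      min (√(en p p + η ^ 2) - η) k = 0 := fun {p η} hη hp => by
    have h1 : en p p = 0 := le_antisymm (by simpa using G.up p hp p hp) (en_nonneg G hp hp)
    rw [h1, zero_add, Real.sqrt_sq hη.le, sub_self, min_eq_left hk0.le]
  refine ⟨fun y hy => ?_, min (r / 4) (k / (2 * √c)), by positivity, min_le_left _ _,
    fun p hp q hq => ?_⟩
  · have ha : chartAt (Euc m) a a ∈ ball (chartAt (Euc m) a a) r := mem_ball_self hr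
    have h1 := le_dd (adm_bump h G (mem_ball_self (by linarith)) hk0 le_rfl hk1 hk2) a y
    have h2 := hb (p := chartAt (Euc m) a a) (η := k) ha
    rw [(chartAt (Euc m) a).left_inv (mem_chart_source _ a), h0 hk0 ha] at h2
    rw [h2, zero_sub, abs_neg] at h1
    refine lt_of_lt_of_le ?_ ((le_abs_self _).trans h1)
    unfold bump
    split_ifs with hx
    · refine lt_min (sub_pos.2 (Real.lt_sqrt_of_sq_lt ?_)) hk0
      have h3 := G.low _ ha _ hx.2
      have h4 : chartAt (Euc m) a y - chartAt (Euc m) a a ≠ 0 := fun e =>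
        hy ((chartAt (Euc m) a).injOn hx.1 (mem_chart_source _ a) (sub_eq_zero.1 e))
      have h5 : 0 < ‖chartAt (Euc m) a y - chartAt (Euc m) a a‖ ^ 2 := by positivity
      have h6 := (mul_pos_iff_of_pos_left hc).1 (h5.trans_le h3)
      linarith
    · exact hk0
  · have hp1 := ball_subset_ball (min_le_left _ _) hp
    have hq1 := ball_subset_ball (min_le_left _ _) hq
    have hp2 : p ∈ ball (chartAt (Euc m) a a) r := ball_subset_ball (by linarith) hp1
    have hq2 : q ∈ ball (chartAt (Euc m) a a) r := ball_subset_ball (by linarith) hq1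
    refine le_antisymm ?_ (le_of_forall_pos_le_add fun ε hε => ?_)
    · have h1 := upper h G hp2 hq2 ⟨le_rfl, zero_le_one⟩ ⟨zero_le_one, le_rfl⟩
      rw [G.zero p hp2 q hq2, G.one p hp2 q hq2] at h1
      simpa using h1
    have hη : 0 < min ε k := lt_min hε hk0
    have h1 := le_dd (adm_bump h G hp1 hη (min_le_right _ _) hk1 hk2)
      ((chartAt (Euc m) a).symm p) ((chartAt (Euc m) a).symm q)
    rw [hb hp2, hb hq2, h0 hη hp2, zero_sub, abs_neg] at h1
    have h2 : √(en p q) ≤ k := by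
      have h3 : ‖q - p‖ ≤ k / √c := by
        have h4 := mem_ball_iff_norm.1 (ball_subset_ball (min_le_right _ _) hp)
        have h5 := mem_ball_iff_norm.1 (ball_subset_ball (min_le_right _ _) hq)
        have h6 : ‖q - p‖ ≤ ‖q - chartAt (Euc m) a a‖ + ‖p - chartAt (Euc m) a a‖ := by
          simpa using norm_sub_le (q - chartAt (Euc m) a a) (p - chartAt (Euc m) a a)
        have h7 : k / √c = k / (2 * √c) + k / (2 * √c) := by field_simp; ring
        linarith
      have h4 := pow_le_pow_left₀ (by positivity) ((le_div_iff₀ hsc).1 h3) 2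
      rw [mul_pow, Real.sq_sqrt hc.le] at h4
      exact Real.sqrt_le_iff.2 ⟨hk0.le, by linarith [G.up p hp2 q hq2]⟩
    have h3 : √(en p q) ≤ √(en p q + min ε k ^ 2) := Real.sqrt_le_sqrt (by nlinarith)
    have h4 : √(en p q) - ε ≤ min (√(en p q + min ε k ^ 2) - min ε k) k :=
      le_min (by linarith [min_le_left ε k]) (by linarith)
    linarith [le_abs_self (min (√(en p q + min ε k ^ 2) - min ε k) k)]

end R4

open R4

theorem locHad_of_geo {m : ℕ} {N : Type} [tN : TopologicalSpace N] [T2Space N] [CompactSpace N]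
    [ChartedSpace (Euc m) N] {g Γ} (h : AtlasMet (E := Euc m) (N := N) g Γ)
    (hg : ∀ a : N, ∃ r c γ v en,
      ChartGeo (chartAt (Euc m) a).target (g a) (chartAt (Euc m) a a) r c γ v en) :
    ∃ (Y : Type) (_ : MetricSpace Y) (_ : CompactSpace Y), LocHad m Y ∧ Nonempty (N ≃ₜ Y) := by
  have hsep : ∀ x y, y ≠ x → 0 < dd g x y := fun x => by
    obtain ⟨r, c, γ, v, en, G⟩ := hg x
    exact (local_dd h G).1
  have hlim : ∀ x, Tendsto (dd g x) (𝓝 x) (𝓝 0) := fun x => by
    obtain ⟨r, c, γ, v, en, G⟩ := hg x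
    obtain ⟨-, s, hs, hsr, hd⟩ := local_dd h G
    have hc := (chartAt (Euc m) x).continuousAt (mem_chart_source _ x)
    have h1 : Tendsto (fun y => √(c * ‖chartAt (Euc m) x y - chartAt (Euc m) x x‖ ^ 2)) (𝓝 x)
        (𝓝 0) := by
      have h2 : ContinuousAt (fun y => √(c * ‖chartAt (Euc m) x y - chartAt (Euc m) x x‖ ^ 2)) x :=
        by fun_prop
      simpa using h2.tendsto
    refine squeeze_zero' (Eventually.of_forall fun y => dd_nonneg x y) ?_ h1
    filter_upwards [chart_source_mem_nhds (Euc m) x, hc.eventually (ball_mem_nhds _ hs)]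
      with y hy hy'
    have h2 := hd _ (mem_ball_self hs) _ hy'
    rw [(chartAt (Euc m) x).left_inv hy, (chartAt (Euc m) x).left_inv (mem_chart_source _ x)] at h2
    rw [h2]
    exact Real.sqrt_le_sqrt (G.up _ (mem_ball_self G.rpos) _
      (ball_subset_ball (by linarith [G.rpos]) hy'))
  let M : MetricSpace N := MetricSpace.ofDistTopology (dd g) dd_self dd_comm dd_tri
    (exists_metric (dd g) dd_comm dd_tri hsep hlim)
    fun x y e => by_contra fun hne => (hsep x y fun e' => hne e'.symm).ne' e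
  have hdist : ∀ x y : N, dist x y = dd g x y := fun _ _ => rfl
  refine ⟨N, M, inferInstance, fun x => ?_, ⟨Homeomorph.refl N⟩⟩
  obtain ⟨r, c, γ, v, en, G⟩ := hg x
  obtain ⟨-, s, hs, hsr, hd⟩ := local_dd h G
  have hr := G.rpos
  set e := chartAt (Euc m) x with he
  have hW : ∀ a ∈ e.source ∩ e ⁻¹' ball (e x) s, ∀ b ∈ e.source ∩ e ⁻¹' ball (e x) s,
      dist a b = √(en (e a) (e b)) := fun a ha b hb => by
    rw [hdist, ← hd _ ha.2 _ hb.2, e.left_inv ha.1, e.left_inv hb.1]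
  have hb4 : ∀ a ∈ e.source ∩ e ⁻¹' ball (e x) s, e a ∈ ball (e x) (r / 4) := fun a ha =>
    ball_subset_ball hsr ha.2
  have hb1 : ∀ a ∈ e.source ∩ e ⁻¹' ball (e x) s, e a ∈ ball (e x) r := fun a ha =>
    ball_subset_ball (by linarith) ha.2
  refine ⟨e.source ∩ e ⁻¹' ball (e x) s, (e.isOpen_inter_preimage isOpen_ball).mem_nhds
    ⟨mem_chart_source _ x, mem_ball_self hs⟩, fun a ha b hb => ?_, fun p hp => ?_⟩
  · have h0 : e.symm (γ (e a) (e b) 0) = a := by
      rw [G.zero _ (hb1 a ha) _ (hb1 b hb), e.left_inv ha.1]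
    have h1 : e.symm (γ (e a) (e b) 1) = b := by
      rw [G.one _ (hb1 a ha) _ (hb1 b hb), e.left_inv hb.1]
    have hu : ∀ s ∈ Icc (0 : ℝ) 1, ∀ t ∈ Icc (0 : ℝ) 1,
        dist (e.symm (γ (e a) (e b) s)) (e.symm (γ (e a) (e b) t)) ≤ |s - t| * dist a b :=
      fun s hs t ht => by
        rw [hW a ha b hb]
        exact upper h G (hb1 a ha) (hb1 b hb) hs ht
    refine ⟨fun t => e.symm (γ (e a) (e b) t), h0, h1, fun s hs t ht => ?_⟩
    refine le_antisymm (hu s hs t ht) ?_
    have h2 := hu 0 ⟨le_rfl, zero_le_one⟩ s hs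
    have h3 := hu 0 ⟨le_rfl, zero_le_one⟩ t ht
    have h4 := hu s hs 1 ⟨zero_le_one, le_rfl⟩
    have h5 := hu t ht 1 ⟨zero_le_one, le_rfl⟩
    rw [h0, zero_sub, abs_neg, abs_of_nonneg (by linarith [hs.1, ht.1])] at h2 h3
    rw [h1, abs_sub_comm, abs_of_nonneg (by linarith [hs.2, ht.2])] at h4 h5
    have h6 := dist_triangle4 a (e.symm (γ (e a) (e b) s)) (e.symm (γ (e a) (e b) t)) b
    have h7 := dist_triangle4 a (e.symm (γ (e a) (e b) t)) (e.symm (γ (e a) (e b) s)) b
    rw [dist_comm (e.symm (γ (e a) (e b) t))] at h7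
    rcases abs_cases (s - t) with h8 | h8 <;> rw [h8.1] <;> linarith
  · obtain ⟨A, hA⟩ := fac h (e.map_source hp.1)
    refine ⟨fun a => A (v (e p) (e a) 0), fun a ha => ?_, fun a ha b hb => ?_,
      fun ι _ z hz hmin => ?_⟩
    · have h1 := G.speed _ (hb1 p hp) _ (hb1 a ha) 0 ⟨le_rfl, zero_le_one⟩
      rw [G.zero _ (hb1 p hp) _ (hb1 a ha)] at h1
      rw [hW p hp a ha, ← h1, sqrt_fac hA]
    · rw [hW a ha b hb, ← map_sub, ← sqrt_fac hA]
      exact Real.sqrt_le_sqrt (G.con _ (hb1 p hp) _ (hb4 a ha) _ (hb4 b hb))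
    · have hc : Tendsto e.symm (𝓝 (e p)) (𝓝 p) := e.tendsto_symm hp.1
      have h1 : IsLocalMin (fun w => ∑ i, en (e (z i)) w) (e p) := by
        have h2 : ∀ w ∈ ball (e x) s, ∑ i, dist (e.symm w) (z i) ^ 2 = ∑ i, en (e (z i)) w :=
          fun w hw => Finset.sum_congr rfl fun i _ => by
            have h3 := hd _ (hz i).2 _ hw
            rw [e.left_inv (hz i).1] at h3
            rw [dist_comm, hdist, h3, Real.sq_sqrt (en_nonneg G (hb1 _ (hz i))
              (ball_subset_ball (by linarith) hw))]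
        filter_upwards [hc.eventually hmin, isOpen_ball.mem_nhds hp.2] with w hw hw'
        rw [← h2 w hw', ← h2 _ hp.2, e.left_inv hp.1]
        exact hw
      have h2 := h1.hasFDerivAt_eq_zero
        (HasFDerivAt.fun_sum fun i _ => G.var _ (hb1 _ (hz i)) _ (hb1 p hp))
      have h4 : ∀ i, v (e (z i)) (e p) 1 = -v (e p) (e (z i)) 0 := fun i => by
        rw [G.rev _ (hb1 _ (hz i)) _ (hb1 p hp), neg_neg]
      have h5 : ∀ u, ⟪∑ i, A (v (e p) (e (z i)) 0), A u⟫ = 0 := fun u => by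
        have h3 := DFunLike.congr_fun h2 u
        simp only [sum_apply, smul_apply, smul_eq_mul, hA, h4, map_neg, neg_apply,
          ← Finset.mul_sum, Finset.sum_neg_distrib, ← sum_inner, zero_apply] at h3
        linarith
      have h6 := h5 (∑ i, v (e p) (e (z i)) 0)
      rw [map_sum, inner_self_eq_zero] at h6
      exact h6

end Pool.Agent.Lib.MP_c2693b_gt
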