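import Pool.Agent.Lib.MP_c2693b_gt.Ob.R0
import Pool.Agent.Lib.MP_c2693b_gt.CH1

/-! Infinitesimally 1-Lipschitz functions. -/

open Set Topology Metric Filter
open scoped RealInnerProductSpace MatrixOrder Matrix

namespace Pool.Agent.Lib.MP_c2693b_gt.R4

variable {m : ℕ}

lemma exists_fac (B : Euc m →L[ℝ] Euc m →L[ℝ] ℝ) (hs : ∀ u v, B u v = B v u)
    (hp : ∀ u, u ≠ 0 → 0 < B u u) : ∃ A : Euc m →L[ℝ] Euc m, ∀ u v, B u v = ⟪A u, A v⟫ := by
  let M : Matrix (Fin m) (Fin m) ℝ :=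
    Matrix.of fun i j => B (EuclideanSpace.single i 1) (EuclideanSpace.single j 1)
  have hB : ∀ u v : Euc m, B u v = u.ofLp ⬝ᵥ M *ᵥ v.ofLp := fun u v => by
    conv_lhs => rw [R0.sum_single u, R0.sum_single v]
    simp only [map_sum, map_smul, sum_apply, smul_apply, smul_eq_mul, dotProduct, Matrix.mulVec,
      M, Matrix.of_apply, Finset.mul_sum]
    rw [Finset.sum_comm]
    exact Finset.sum_congr rfl fun i _ => Finset.sum_congr rfl fun j _ => by ring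
  have hM : M.PosSemidef := by
    refine Matrix.posSemidef_iff_dotProduct_mulVec.2 ⟨?_, fun x => ?_⟩
    · ext i j
      simp [M, hs (EuclideanSpace.single j 1)]
    · have h := hB (WithLp.toLp 2 x) (WithLp.toLp 2 x)
      simp only [star_trivial]
      rw [← h]
      by_cases hx : WithLp.toLp 2 x = (0 : Euc m)
      · simp [hx]
      · exact (hp _ hx).le
  obtain ⟨C, hC⟩ := CStarAlgebra.nonneg_iff_eq_star_mul_self.mp hM.nonneg
  refine ⟨LinearMap.toContinuousLinearMap (Matrix.toLpLin 2 2 C), fun u v => ?_⟩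
  rw [hB, hC, EuclideanSpace.inner_eq_star_dotProduct, ← Matrix.mulVec_mulVec,
    Matrix.dotProduct_mulVec, Matrix.star_eq_conjTranspose, Matrix.conjTranspose_eq_transpose_of_trivial,
    Matrix.vecMul_transpose, dotProduct_comm]
  simp

lemma sqrt_fac {B : Euc m →L[ℝ] Euc m →L[ℝ] ℝ} {A : Euc m →L[ℝ] Euc m}
    (h : ∀ u v, B u v = ⟪A u, A v⟫) (u : Euc m) : √(B u u) = ‖A u‖ := by
  rw [h, real_inner_self_eq_norm_sq, Real.sqrt_sq (norm_nonneg _)]

/-- `φ` is infinitesimally 1-Lipschitz at `q` for the form `B`. -/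
def IL (B : Euc m →L[ℝ] Euc m →L[ℝ] ℝ) (φ : Euc m → ℝ) (q : Euc m) : Prop :=
  ∀ ε : ℝ, 0 < ε → ∀ᶠ w in 𝓝 q, |φ w - φ q| ≤ √(B (w - q) (w - q)) + ε * ‖w - q‖

variable {B : Euc m →L[ℝ] Euc m →L[ℝ] ℝ} {φ ψ : Euc m → ℝ} {q : Euc m}

lemma IL.congr (h : IL B φ q) (he : ψ =ᶠ[𝓝 q] φ) : IL B ψ q := fun ε hε => by
  filter_upwards [h ε hε, he] with w h1 h2
  rwa [h2, he.eq_of_nhds]

lemma il_const (c : ℝ) : IL B (fun _ => c) q := fun ε hε =>
  Eventually.of_forall fun w => by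
    rw [sub_self, abs_zero]
    positivity

lemma IL.min_const (h : IL B φ q) (c : ℝ) : IL B (fun w => min (φ w) c) q := fun ε hε => by
  filter_upwards [h ε hε] with w h1
  refine le_trans ?_ h1
  simpa using abs_min_sub_min_le_max (φ w) c (φ q) c

lemma il_of_deriv {L : Euc m →L[ℝ] ℝ} (h : HasFDerivAt φ L q) (hL : ∀ u, |L u| ≤ √(B u u)) :
    IL B φ q := fun ε hε => by
  filter_upwards [h.isLittleO.bound hε] with w h1
  have h2 := hL (w - q)
  have h3 : |φ w - φ q| ≤ |φ w - φ q - L (w - q)| + |L (w - q)| := by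
    simpa using abs_add_le (φ w - φ q - L (w - q)) (L (w - q))
  rw [Real.norm_eq_abs] at h1
  linarith

lemma IL.comp {F : Type} [NormedAddCommGroup F] [NormedSpace ℝ F] {A : Euc m →L[ℝ] Euc m}
    (hA : ∀ u v, B u v = ⟪A u, A v⟫) {T : F → Euc m} {L : F →L[ℝ] Euc m} {s : Set F} {y : F}
    (h : IL B φ (T y)) (hT : HasFDerivWithinAt T L s y) {ε : ℝ} (hε : 0 < ε) :
    ∀ᶠ w in 𝓝[s] y, |φ (T w) - φ (T y)| ≤ √(B (L (w - y)) (L (w - y))) + ε * ‖w - y‖ := by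
  obtain ⟨δ, hδ, hδ1, hδ2⟩ : ∃ δ : ℝ, 0 < δ ∧ δ ≤ 1 ∧ δ * (‖A‖ + ‖L‖ + 1) ≤ ε := by
    refine ⟨min 1 (ε / (‖A‖ + ‖L‖ + 1)), by positivity, min_le_left _ _, ?_⟩
    rw [← le_div_iff₀ (by positivity)]
    exact min_le_right _ _
  filter_upwards [hT.continuousWithinAt.eventually (h δ hδ), hT.isLittleO.bound hδ] with w h1 h2
  rw [sqrt_fac hA] at h1 ⊢
  have e1 : T w - T y = L (w - y) + (T w - T y - L (w - y)) := by abel
  have h3 : ‖A (T w - T y)‖ ≤ ‖A (L (w - y))‖ + ‖A‖ * (δ * ‖w - y‖) := by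
    rw [e1, map_add]
    refine (norm_add_le _ _).trans (add_le_add le_rfl ((A.le_opNorm _).trans ?_))
    gcongr
  have h4 : ‖T w - T y‖ ≤ ‖L‖ * ‖w - y‖ + δ * ‖w - y‖ := by
    rw [e1]
    exact (norm_add_le _ _).trans (add_le_add (L.le_opNorm _) h2)
  have h5 : δ * ‖T w - T y‖ ≤ δ * (‖L‖ * ‖w - y‖ + 1 * ‖w - y‖) := by
    refine mul_le_mul_of_nonneg_left (h4.trans ?_) hδ.le
    gcongr
  have h6 := mul_le_mul_of_nonneg_right hδ2 (norm_nonneg (w - y))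
  nlinarith

lemma abs_le_of_loc {f : ℝ → ℝ} {K : ℝ}
    (h : ∀ ε : ℝ, 0 < ε → ∀ s ∈ Icc (0 : ℝ) 1, ∀ᶠ s' in 𝓝[Icc 0 1] s,
      |f s' - f s| ≤ (K + ε) * |s' - s|) {a b : ℝ} (ha : a ∈ Icc (0 : ℝ) 1)
    (hb : b ∈ Icc (0 : ℝ) 1) : |f a - f b| ≤ |a - b| * K := by
  wlog hab : a ≤ b generalizing a b
  · rw [abs_sub_comm, abs_sub_comm a]
    exact this hb ha (le_of_not_ge hab)
  have hsub : Icc a b ⊆ Icc 0 1 := Icc_subset_Icc ha.1 hb.2
  rw [abs_sub_comm a, abs_of_nonneg (sub_nonneg.2 hab)]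
  refine le_of_forall_pos_le_add fun ε hε => ?_
  have h1 : ∀ s ∈ Icc a b, ∀ᶠ s' in 𝓝 s, s' ∈ Icc a b → |f s' - f s| ≤ (K + ε) * |s' - s| :=
    fun s hs => (eventually_nhdsWithin_iff.1 (h ε hε s (hsub hs))).mono fun s' h' h'' =>
      h' (hsub h'')
  have h2 := CH.ll_le hab h1
  have h3 := CH.ll_le (f := fun t => -f t) (K := K + ε) hab fun s hs =>
    (h1 s hs).mono fun s' h' h'' => by
      rw [neg_sub_neg, abs_sub_comm]
      exact h' h''
  have h4 : ε * (b - a) ≤ ε * 1 := mul_le_mul_of_nonneg_left (by linarith [ha.1, hb.2]) hε.le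
  rw [abs_le]
  constructor <;> nlinarith

theorem exists_metric {N : Type} [tN : TopologicalSpace N] [CompactSpace N] (d : N → N → ℝ)
    (h2 : ∀ x y, d x y = d y x) (h3 : ∀ x y z, d x z ≤ d x y + d y z)
    (h4 : ∀ x y, y ≠ x → 0 < d x y) (h5 : ∀ x, Tendsto (d x) (𝓝 x) (𝓝 0)) (s : Set N) :
    IsOpen s ↔ ∀ x ∈ s, ∃ ε > 0, ∀ y, d x y < ε → y ∈ s := by
  constructor
  · intro hs x hx
    have hc : Continuous (d x) := by
      refine continuous_iff_continuousAt.2 fun y => tendsto_iff_dist_tendsto_zero.2 ?_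
      refine squeeze_zero (fun _ => dist_nonneg) (fun z => ?_) (h5 y)
      rw [Real.dist_eq, abs_le]
      constructor <;> linarith [h3 x y z, h3 x z y, h2 y z]
    rcases sᶜ.eq_empty_or_nonempty with he | hne
    · exact ⟨1, one_pos, fun y _ => by_contra fun hy => (he ▸ hy : y ∈ (∅ : Set N))⟩
    · obtain ⟨z, hz, hmin⟩ := hs.isClosed_compl.isCompact.exists_isMinOn hne hc.continuousOn
      refine ⟨d x z, h4 x z fun e => hz (e ▸ hx), fun y hy => by_contra fun hy' => ?_⟩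
      exact absurd (hmin hy') (not_le.2 hy)
  · intro h
    refine isOpen_iff_mem_nhds.2 fun x hx => ?_
    obtain ⟨ε, hε, h'⟩ := h x hx
    exact ((h5 x).eventually (gt_mem_nhds hε)).mono h'

end Pool.Agent.Lib.MP_c2693b_gt.R4
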