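import Pool.Agent.Lib.MP_c2693b_gt.Ob.RDefs

/-! Quantitative chart data and existence of short geodesics. -/

open Set Topology Metric

namespace Pool.Agent.Lib.MP_c2693b_gt.Rm

variable {E : Type} [NormedAddCommGroup E] [NormedSpace ℝ E]

/-- Bounds for a `C²` map on a closed ball. -/
structure Bd {F : Type} [NormedAddCommGroup F] [NormedSpace ℝ F] (f : E → F) (x0 : E) (R C : ℝ) :
    Prop where
  der : ∀ z ∈ closedBall x0 R, HasFDerivAt f (fderiv ℝ f z) z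
  n0 : ∀ z ∈ closedBall x0 R, ‖f z‖ ≤ C
  n1 : ∀ z ∈ closedBall x0 R, ‖fderiv ℝ f z‖ ≤ C
  lip : ∀ z ∈ closedBall x0 R, ∀ w ∈ closedBall x0 R, ‖f w - f z‖ ≤ C * ‖w - z‖
  tay : ∀ z ∈ closedBall x0 R, ∀ w ∈ closedBall x0 R,
    ‖f w - f z - fderiv ℝ f z (w - z)‖ ≤ C * ‖w - z‖ ^ 2

theorem Bd.mono {F : Type} [NormedAddCommGroup F] [NormedSpace ℝ F] {f : E → F} {x0 : E}
    {R C R' C' : ℝ} (h : Bd f x0 R C) (hR : R' ≤ R) (hC : C ≤ C') : Bd f x0 R' C' := by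
  have s := closedBall_subset_closedBall (x := x0) hR
  refine ⟨fun z hz => h.der z (s hz), fun z hz => (h.n0 z (s hz)).trans hC,
    fun z hz => (h.n1 z (s hz)).trans hC, fun z hz w hw => (h.lip z (s hz) w (s hw)).trans ?_,
    fun z hz w hw => (h.tay z (s hz) w (s hw)).trans ?_⟩ <;> gcongr

theorem Bd.nonneg {F : Type} [NormedAddCommGroup F] [NormedSpace ℝ F] {f : E → F} {x0 z : E}
    {R C : ℝ} (h : Bd f x0 R C) (hz : z ∈ closedBall x0 R) : 0 ≤ C :=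
  (norm_nonneg _).trans (h.n0 z hz)

theorem exists_bd {F : Type} [NormedAddCommGroup F] [NormedSpace ℝ F] {f : E → F} {x0 : E}
    (hf : ContDiffAt ℝ 2 f x0) : ∃ R > 0, ∃ C, Bd f x0 R C := by
  have h1 : ContDiffAt ℝ 1 (fderiv ℝ f) x0 := hf.fderiv_right (by norm_num)
  obtain ⟨K, t, ht, hK⟩ := h1.exists_lipschitzOnWith
  have h2 : ∀ᶠ y in 𝓝 x0, ContDiffAt ℝ 2 f y := hf.eventually (by simp)
  obtain ⟨R, hR, hs⟩ := nhds_basis_closedBall.mem_iff.1 (Filter.inter_mem ht h2)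
  have hd : ∀ z ∈ closedBall x0 R, DifferentiableAt ℝ f z := fun z hz =>
    ContDiffAt.differentiableAt (show ContDiffAt ℝ 2 f z from (hs hz).2) (by norm_num)
  have hl : ∀ z ∈ closedBall x0 R, ∀ w ∈ closedBall x0 R,
      ‖fderiv ℝ f w - fderiv ℝ f z‖ ≤ K * ‖w - z‖ := fun z hz w hw => by
    simpa [dist_eq_norm] using hK.dist_le_mul w (hs hw).1 z (hs hz).1
  have h0 : x0 ∈ closedBall x0 R := mem_closedBall_self hR.le
  have hK0 : (0 : ℝ) ≤ K := K.2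
  have hn : ∀ z ∈ closedBall x0 R, ‖fderiv ℝ f z‖ ≤ ‖fderiv ℝ f x0‖ + K * R := fun z hz => by
    have := hl x0 h0 z hz
    have h3 : ‖z - x0‖ ≤ R := mem_closedBall_iff_norm.1 hz
    have h4 := norm_sub_norm_le (fderiv ℝ f z) (fderiv ℝ f x0)
    nlinarith
  set C1 := ‖fderiv ℝ f x0‖ + K * R with hC1
  have hC1p : 0 ≤ C1 := by positivity
  have hlip : ∀ z ∈ closedBall x0 R, ∀ w ∈ closedBall x0 R, ‖f w - f z‖ ≤ C1 * ‖w - z‖ :=
    fun z hz w hw => (convex_closedBall x0 R).norm_image_sub_le_of_norm_fderiv_le hd hn hz hw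
  have hf0 := norm_nonneg (f x0)
  have hCR : 0 ≤ C1 * R := by positivity
  refine ⟨R, hR, ‖f x0‖ + C1 * R + C1 + K, fun z hz => (hd z hz).hasFDerivAt, fun z hz => ?_,
    fun z hz => (hn z hz).trans (by linarith), fun z hz w hw => (hlip z hz w hw).trans ?_,
    fun z hz w hw => ?_⟩
  · have := hlip x0 h0 z hz
    have h3 : ‖z - x0‖ ≤ R := mem_closedBall_iff_norm.1 hz
    have h4 := norm_sub_norm_le (f z) (f x0)
    nlinarith
  · gcongr; linarith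
  · have := ((convex_closedBall x0 R).inter
      (convex_closedBall z ‖w - z‖)).norm_image_sub_le_of_norm_fderiv_le' (C := K * ‖w - z‖)
      (φ := fderiv ℝ f z) (fun y hy => hd y hy.1) (fun y hy => (hl z hz y hy.1).trans (by
        gcongr; exact mem_closedBall_iff_norm.1 hy.2))
      ⟨hz, mem_closedBall_self (norm_nonneg _)⟩ ⟨hw, mem_closedBall_iff_norm.2 le_rfl⟩
    refine this.trans ?_
    rw [mul_assoc, ← pow_two]; gcongr; linarith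

/-- Chart data with explicit constants on a closed ball. -/
structure Loc (g : E → E →L[ℝ] E →L[ℝ] ℝ) (Γ : E → E →L[ℝ] E →L[ℝ] E) (x0 : E) (R C : ℝ) :
    Prop where
  hC : 1 ≤ C
  bg : Bd g x0 R C
  bΓ : Bd Γ x0 R C
  low : ∀ z ∈ closedBall x0 R, ∀ u, ‖u‖ ^ 2 ≤ C * g z u u
  symm : ∀ z ∈ closedBall x0 R, ∀ u v, g z u v = g z v u
  symmΓ : ∀ z ∈ closedBall x0 R, ∀ u v, Γ z u v = Γ z v u
  compat : ∀ z ∈ closedBall x0 R, ∀ u v w,
    fderiv ℝ g z u v w = g z (Γ z u v) w + g z v (Γ z u w)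
  curv : ∀ z ∈ closedBall x0 R, ∀ u v,
    g z (fderiv ℝ Γ z u v v - fderiv ℝ Γ z v u v + Γ z u (Γ z v v) - Γ z v (Γ z u v)) u ≤ 0

variable {g : E → E →L[ℝ] E →L[ℝ] ℝ} {Γ : E → E →L[ℝ] E →L[ℝ] E} {x0 : E} {R C a : ℝ}

theorem coercive [FiniteDimensional ℝ E] (B : E →L[ℝ] E →L[ℝ] ℝ) (h : ∀ u, u ≠ 0 → 0 < B u u) :
    ∃ c > 0, ∀ u, c * ‖u‖ ^ 2 ≤ B u u := by
  have hc : ∃ c > 0, ∀ u ∈ sphere (0 : E) 1, c ≤ B u u := by
    rcases (sphere (0 : E) 1).eq_empty_or_nonempty with he | hne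
    · exact ⟨1, one_pos, by simp [he]⟩
    · obtain ⟨u, hu, hm⟩ := (isCompact_sphere (0 : E) 1).exists_isMinOn hne
        (f := fun u => B u u) (by fun_prop)
      refine ⟨_, h u ?_, fun w hw => hm hw⟩
      rintro rfl; simp at hu
  obtain ⟨c, c0, hc⟩ := hc
  refine ⟨c, c0, fun u => ?_⟩
  rcases eq_or_ne u 0 with rfl | hu
  · simp
  · have hn : 0 < ‖u‖ := norm_pos_iff.2 hu
    have := hc (‖u‖⁻¹ • u) (by simp [norm_smul, hn.ne'])
    simp only [map_smul, smul_apply, smul_eq_mul] at this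
    have h2 : c * ‖u‖ ^ 2 ≤ ‖u‖⁻¹ * (‖u‖⁻¹ * B u u) * ‖u‖ ^ 2 := by gcongr
    refine h2.trans (le_of_eq ?_)
    field_simp

theorem exists_loc [FiniteDimensional ℝ E] {U : Set E} (h : ChartMet U g Γ) (hx : x0 ∈ U) :
    ∃ R > 0, ∃ C, closedBall x0 R ⊆ U ∧ Loc g Γ x0 R C := by
  have hU := h.op.mem_nhds hx
  obtain ⟨R1, p1, C1, b1⟩ := exists_bd (h.cg.contDiffAt hU)
  obtain ⟨R2, p2, C2, b2⟩ := exists_bd (h.cΓ.contDiffAt hU)
  obtain ⟨R3, p3, b3⟩ := nhds_basis_closedBall.mem_iff.1 hU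
  obtain ⟨c, c0, hc⟩ := coercive (g x0) (h.pos x0 hx)
  have hC1 : 0 ≤ C1 := b1.nonneg (mem_closedBall_self p1.le)
  have hC2 : 0 ≤ C2 := b2.nonneg (mem_closedBall_self p2.le)
  set R := min (min R1 R2) (min R3 (c / (2 * (C1 + 1)))) with hR
  have e1 : R ≤ R1 := (min_le_left _ _).trans (min_le_left _ _)
  have e2 : R ≤ R2 := (min_le_left _ _).trans (min_le_right _ _)
  have e3 : R ≤ R3 := (min_le_right _ _).trans (min_le_left _ _)
  have e4 : R ≤ c / (2 * (C1 + 1)) := (min_le_right _ _).trans (min_le_right _ _)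
  have s : closedBall x0 R ⊆ U := (closedBall_subset_closedBall e3).trans b3
  have hc2 : 0 < 2 / c := by positivity
  refine ⟨R, by positivity, 1 + C1 + C2 + 2 / c, s, by linarith, b1.mono e1 (by linarith),
    b2.mono e2 (by linarith), fun z hz u => ?_, fun z hz => h.symm z (s hz),
    fun z hz => h.symmΓ z (s hz), fun z hz => h.compat z (s hz), fun z hz => h.curv z (s hz)⟩
  have h1 := b1.lip x0 (mem_closedBall_self p1.le) z (closedBall_subset_closedBall e1 hz)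
  have h2 : ‖z - x0‖ ≤ c / (2 * (C1 + 1)) := (mem_closedBall_iff_norm.1 hz).trans e4
  have h3 : ‖g z - g x0‖ ≤ c / 2 := by
    refine h1.trans ?_
    calc C1 * ‖z - x0‖ ≤ (C1 + 1) * (c / (2 * (C1 + 1))) := by gcongr; linarith
      _ = c / 2 := by field_simp
  have h4 := (g z - g x0).le_opNorm₂ u u
  have h5 : ‖(g z - g x0) u u‖ ≤ c / 2 * ‖u‖ * ‖u‖ := h4.trans (by gcongr)
  simp only [sub_apply, Real.norm_eq_abs] at h5
  have h6 := hc u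
  have h7 : c / 2 * ‖u‖ ^ 2 ≤ g z u u := by nlinarith [neg_abs_le (g z u u - g x0 u u)]
  have h8 : 0 ≤ g z u u := le_trans (by positivity) h7
  calc ‖u‖ ^ 2 = 2 / c * (c / 2 * ‖u‖ ^ 2) := by field_simp
    _ ≤ 2 / c * g z u u := by gcongr
    _ ≤ _ := by gcongr; linarith

/-- A geodesic on `[0,1]` in the ball, with velocity of norm at most `a`. -/
structure Geo (Γ : E → E →L[ℝ] E →L[ℝ] E) (x0 : E) (R a : ℝ) (γ v : ℝ → E) : Prop where
  d1 : ∀ t ∈ Icc (0 : ℝ) 1, HasDerivWithinAt γ (v t) (Icc 0 1) t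
  d2 : ∀ t ∈ Icc (0 : ℝ) 1, HasDerivWithinAt v (-Γ (γ t) (v t) (v t)) (Icc 0 1) t
  mem : ∀ t ∈ Icc (0 : ℝ) 1, γ t ∈ closedBall x0 R
  spd : ∀ t ∈ Icc (0 : ℝ) 1, ‖v t‖ ≤ a

theorem mv1 {u u' : ℝ → E} {κ : ℝ}
    (h : ∀ t ∈ Icc (0 : ℝ) 1, HasDerivWithinAt u (u' t) (Icc 0 1) t)
    (hb : ∀ t ∈ Icc (0 : ℝ) 1, ‖u' t‖ ≤ κ) {s t : ℝ} (hs : s ∈ Icc (0 : ℝ) 1)
    (ht : t ∈ Icc (0 : ℝ) 1) : ‖u t - u s‖ ≤ κ * |t - s| :=
  (convex_Icc 0 1).norm_image_sub_le_of_norm_hasDerivWithin_le h hb hs ht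

theorem mv1' {u u' : ℝ → E} {κ : ℝ}
    (h : ∀ t ∈ Icc (0 : ℝ) 1, HasDerivWithinAt u (u' t) (Icc 0 1) t)
    (hb : ∀ t ∈ Icc (0 : ℝ) 1, ‖u' t‖ ≤ κ) {s t : ℝ} (hs : s ∈ Icc (0 : ℝ) 1)
    (ht : t ∈ Icc (0 : ℝ) 1) : ‖u t - u s‖ ≤ κ := by
  have h0 : 0 ≤ κ := (norm_nonneg _).trans (hb s hs)
  have : |t - s| ≤ 1 := abs_le.2 ⟨by linarith [ht.1, hs.2], by linarith [ht.2, hs.1]⟩
  exact (mv1 h hb hs ht).trans (by nlinarith)

theorem mv2 {δ u u' : ℝ → E} {κ : ℝ}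
    (h1 : ∀ t ∈ Icc (0 : ℝ) 1, HasDerivWithinAt δ (u t) (Icc 0 1) t)
    (h2 : ∀ t ∈ Icc (0 : ℝ) 1, HasDerivWithinAt u (u' t) (Icc 0 1) t)
    (hb : ∀ t ∈ Icc (0 : ℝ) 1, ‖u' t‖ ≤ κ) {s : ℝ} (hs : s ∈ Icc (0 : ℝ) 1) :
    ‖δ 1 - δ 0 - u s‖ ≤ κ := by
  have := mv1' (u := fun t => δ t - t • u s) (u' := fun t => u t - u s) (κ := κ)
    (fun t ht => by
      simpa using! (h1 t ht).sub ((hasDerivWithinAt_id t (Icc 0 1)).smul_const (u s)))
    (fun t ht => mv1' h2 hb hs ht) (s := 0) (t := 1) (by simp) (by simp)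
  convert this using 2
  simp only [one_smul, zero_smul]; abel

theorem quad_lip (h : Bd Γ x0 R C) {x x' y y' : E} (hx : x ∈ closedBall x0 R)
    (hx' : x' ∈ closedBall x0 R) (hy : ‖y‖ ≤ a) (hy' : ‖y'‖ ≤ a) :
    ‖Γ x y y - Γ x' y' y'‖ ≤ C * ‖x - x'‖ * a ^ 2 + 2 * C * a * ‖y - y'‖ := by
  have e : Γ x y y - Γ x' y' y' = (Γ x - Γ x') y y + Γ x' (y - y') y + Γ x' y' (y - y') := by
    simp
  have hC : 0 ≤ C := h.nonneg hx
  have ha : 0 ≤ a := (norm_nonneg _).trans hy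
  have h1 : ‖(Γ x - Γ x') y y‖ ≤ C * ‖x - x'‖ * a * a :=
    ((Γ x - Γ x').le_opNorm₂ y y).trans (by gcongr; exact h.lip x' hx' x hx)
  have h2 : ‖Γ x' (y - y') y‖ ≤ C * ‖y - y'‖ * a :=
    ((Γ x').le_opNorm₂ _ _).trans (by gcongr; exact h.n0 x' hx')
  have h3 : ‖Γ x' y' (y - y')‖ ≤ C * a * ‖y - y'‖ :=
    ((Γ x').le_opNorm₂ _ _).trans (by gcongr; exact h.n0 x' hx')
  rw [e]
  refine (norm_add₃_le).trans ?_
  nlinarith

/-- The a priori estimate for two geodesics with the same starting point. -/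
theorem apriori (h : Loc g Γ x0 R C) (ha : 12 * C * a ≤ 1) {γ1 v1 γ2 v2 : ℝ → E}
    (h1 : Geo Γ x0 R a γ1 v1) (h2 : Geo Γ x0 R a γ2 v2) (h0 : γ1 0 = γ2 0) :
    ∃ D, 0 ≤ D ∧ (∀ t ∈ Icc (0 : ℝ) 1, ‖v2 t - v1 t‖ ≤ D ∧ ‖γ2 t - γ1 t‖ ≤ D * t) ∧
      D ≤ 4 / 3 * ‖γ2 1 - γ1 1‖ ∧ D ≤ 4 / 3 * ‖v2 0 - v1 0‖ ∧
      ‖γ2 1 - γ1 1 - (v2 0 - v1 0)‖ ≤ D / 4 := by
  have z0 : (0 : ℝ) ∈ Icc (0 : ℝ) 1 := by simp
  have hC := h.hC
  have a0 : 0 ≤ a := (norm_nonneg _).trans (h1.spd 0 z0)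
  have a1 : a ≤ 1 := by nlinarith
  have du : ∀ t ∈ Icc (0 : ℝ) 1, HasDerivWithinAt (fun t => v2 t - v1 t)
      (-Γ (γ2 t) (v2 t) (v2 t) - -Γ (γ1 t) (v1 t) (v1 t)) (Icc 0 1) t :=
    fun t ht => (h2.d2 t ht).sub (h1.d2 t ht)
  have dd : ∀ t ∈ Icc (0 : ℝ) 1, HasDerivWithinAt (fun t => γ2 t - γ1 t)
      (v2 t - v1 t) (Icc 0 1) t := fun t ht => (h2.d1 t ht).sub (h1.d1 t ht)
  obtain ⟨s, hs, hm⟩ := isCompact_Icc.exists_isMaxOn ⟨0, z0⟩ (f := fun t => ‖v2 t - v1 t‖)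
    (ContinuousOn.norm fun t ht => (du t ht).continuousWithinAt)
  set D := ‖v2 s - v1 s‖ with hD
  have D0 : 0 ≤ D := norm_nonneg _
  have b1 : ∀ t ∈ Icc (0 : ℝ) 1, ‖v2 t - v1 t‖ ≤ D := fun t ht => hm ht
  have b2 : ∀ t ∈ Icc (0 : ℝ) 1, ‖γ2 t - γ1 t‖ ≤ D * t := fun t ht => by
    simpa [h0, abs_of_nonneg ht.1] using mv1 dd b1 z0 ht
  have b3 : ∀ t ∈ Icc (0 : ℝ) 1,
      ‖-Γ (γ2 t) (v2 t) (v2 t) - -Γ (γ1 t) (v1 t) (v1 t)‖ ≤ D / 4 := fun t ht => by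
    rw [neg_sub_neg, norm_sub_rev]
    refine (quad_lip h.bΓ (h2.mem t ht) (h1.mem t ht) (h2.spd t ht) (h1.spd t ht)).trans ?_
    have e1 : ‖γ2 t - γ1 t‖ ≤ D := (b2 t ht).trans (by nlinarith [ht.2])
    have e2 := b1 t ht
    have e3 : C * ‖γ2 t - γ1 t‖ * a ^ 2 ≤ C * D * (a * 1) := by rw [pow_two]; gcongr
    have e4 : 2 * C * a * ‖v2 t - v1 t‖ ≤ 2 * C * a * D := by gcongr
    nlinarith
  have m1 := mv2 dd du b3 hs
  have m2 := mv2 dd du b3 z0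
  have m3 := mv1' du b3 z0 hs
  simp only [h0, sub_self, sub_zero] at m1 m2
  refine ⟨D, D0, fun t ht => ⟨b1 t ht, b2 t ht⟩, ?_, ?_, m2⟩
  · have := norm_sub_norm_le (v2 s - v1 s) (γ2 1 - γ1 1)
    rw [norm_sub_rev] at m1; linarith
  · have := norm_sub_norm_le (v2 s - v1 s) (v2 0 - v1 0)
    linarith

theorem Geo.const {p : E} (hp : p ∈ closedBall x0 R) (ha : 0 ≤ a) :
    Geo Γ x0 R a (fun _ => p) (fun _ => 0) :=
  ⟨fun t _ => hasDerivWithinAt_const _ _ _, fun t _ => by simpa using hasDerivWithinAt_const _ _ _,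
    fun _ _ => hp, fun _ _ => by simpa using ha⟩

theorem Geo.rev {γ v : ℝ → E} (h : Geo Γ x0 R a γ v) :
    Geo Γ x0 R a (fun t => γ (1 - t)) (fun t => -v (1 - t)) := by
  have m : ∀ t ∈ Icc (0 : ℝ) 1, 1 - t ∈ Icc (0 : ℝ) 1 := fun t ht =>
    ⟨by linarith [ht.2], by linarith [ht.1]⟩
  have d : ∀ t, HasDerivWithinAt (fun t : ℝ => 1 - t) (-1) (Icc 0 1) t := fun t => by
    simpa using (hasDerivWithinAt_id t (Icc (0 : ℝ) 1)).const_sub 1
  refine ⟨fun t ht => ?_, fun t ht => ?_, fun t ht => h.mem _ (m t ht),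
    fun t ht => by simpa using h.spd _ (m t ht)⟩
  · simpa using! (h.d1 _ (m t ht)).scomp t (d t) m
  · simpa using! ((h.d2 _ (m t ht)).scomp t (d t) m).neg

open ODE in
theorem pl_mem [CompleteSpace E] {f : ℝ → E → E} {tmin tmax : ℝ} {t₀ : Icc tmin tmax} {x₀ : E}
    {a L K : NNReal} (hf : IsPicardLindelof f t₀ x₀ a 0 L K) :
    ∃ α : ℝ → E, α t₀ = x₀ ∧ (∀ t, α t ∈ closedBall x₀ a) ∧
      ∀ t ∈ Icc tmin tmax, HasDerivWithinAt α (f t (α t)) (Icc tmin tmax) t := by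
  obtain ⟨α, hα⟩ := FunSpace.exists_isFixedPt_next hf (mem_closedBall_self le_rfl)
  refine ⟨α.compProj, by rw [FunSpace.compProj_val, ← hα, FunSpace.next_apply₀],
    fun t => α.compProj_mem_closedBall hf.mul_max_le, fun t ht ↦ ?_⟩
  apply hasDerivWithinAt_picard_Icc t₀.2 hf.continuousOn_uncurry
    α.continuous_compProj.continuousOn (fun _ ht' ↦ α.compProj_mem_closedBall hf.mul_max_le)
    x₀ ht |>.congr_of_mem _ ht
  intro t' ht'
  nth_rw 1 [← hα]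
  rw [FunSpace.compProj_of_mem ht', FunSpace.next_apply]

theorem ivp [CompleteSpace E] (h : Loc g Γ x0 R C) (a0 : 0 ≤ a) (ha : 12 * C * a ≤ 1) {p w : E}
    (hp : p ∈ closedBall x0 (R - a)) (hw : ‖w‖ ≤ 3 / 4 * a) :
    ∃ γ v, Geo Γ x0 R a γ v ∧ γ 0 = p ∧ v 0 = w := by
  have hC := h.hC
  have a1 : a ≤ 1 := by nlinarith
  obtain ⟨a, rfl⟩ : ∃ b : NNReal, a = b := ⟨⟨a, a0⟩, rfl⟩
  set f : ℝ → E × E → E × E :=
    fun _ z => ((1 / 4 : ℝ) • z.2, (1 / 4 : ℝ) • -Γ z.1 z.2 z.2) with hf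
  have key : ∀ z ∈ closedBall ((p, (4 : ℝ) • w) : E × E) a,
      z.1 ∈ closedBall x0 R ∧ ‖z.2‖ ≤ 4 * a := fun z hz => by
    rw [mem_closedBall, Prod.dist_eq, max_le_iff] at hz
    refine ⟨?_, ?_⟩
    · have := dist_triangle z.1 p x0
      rw [mem_closedBall] at hp ⊢; linarith [hz.1]
    · have e := hz.2
      rw [dist_eq_norm] at e
      have := norm_sub_norm_le z.2 ((4 : ℝ) • w)
      rw [norm_smul] at this; simp only [Real.norm_ofNat] at this; linarith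
  have hpl : IsPicardLindelof f (tmin := 0) (tmax := 1) ⟨0, by simp⟩ (p, (4 : ℝ) • w)
      a 0 a 1 := by
    refine ⟨fun t _ => ?_, fun x _ => continuousOn_const, fun t _ z hz => ?_, by simp⟩
    · refine LipschitzOnWith.of_dist_le_mul fun z hz z' hz' => ?_
      obtain ⟨k1, k2⟩ := key z hz
      obtain ⟨k3, k4⟩ := key z' hz'
      have q := quad_lip h.bΓ k1 k3 k2 k4
      have e1 : ‖z.1 - z'.1‖ ≤ dist z z' := by
        rw [← dist_eq_norm, Prod.dist_eq]; exact le_max_left _ _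
      have e2 : ‖z.2 - z'.2‖ ≤ dist z z' := by
        rw [← dist_eq_norm, Prod.dist_eq]; exact le_max_right _ _
      have d0 : 0 ≤ dist z z' := dist_nonneg
      rw [NNReal.coe_one, one_mul, Prod.dist_eq (x := f t z), max_le_iff]
      simp only [hf, dist_eq_norm (E := E), ← smul_sub, norm_smul, neg_sub_neg]
      rw [norm_sub_rev (Γ _ _ _)]
      have e3 : C * ‖z.1 - z'.1‖ * (4 * a) ^ 2 ≤ C * dist z z' * (16 * (a * 1)) := by
        gcongr; nlinarith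
      have e4 : 2 * C * (4 * a) * ‖z.2 - z'.2‖ ≤ 2 * C * (4 * a) * dist z z' := by gcongr
      norm_num
      constructor <;> nlinarith
    · obtain ⟨k1, k2⟩ := key z hz
      have q : ‖Γ z.1 z.2 z.2‖ ≤ C * (4 * a) * (4 * a) :=
        ((Γ z.1).le_opNorm₂ _ _).trans (by gcongr; exact h.bΓ.n0 _ k1)
      simp only [hf, Prod.norm_def, norm_smul, norm_neg, max_le_iff]
      norm_num
      constructor <;> nlinarith
  obtain ⟨α, hz, hm, hd⟩ := pl_mem hpl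
  replace hz : α 0 = (p, (4 : ℝ) • w) := hz
  refine ⟨fun t => (α t).1, fun t => (1 / 4 : ℝ) • (α t).2,
    ⟨fun t ht => ?_, fun t ht => ?_, fun t _ => (key _ (hm t)).1, fun t _ => ?_⟩, by simp [hz],
    by simp [hz, smul_smul]⟩
  · exact (ContinuousLinearMap.fst ℝ E E).hasFDerivAt.comp_hasDerivWithinAt t (hd t ht)
  · have := ((ContinuousLinearMap.snd ℝ E E).hasFDerivAt.comp_hasDerivWithinAt t
      (hd t ht)).const_smul (1 / 4 : ℝ)
    simpa [hf] using! this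
  · have := (key _ (hm t)).2
    rw [norm_smul]; norm_num; linarith

/-- The boundary value problem for short geodesics. -/
theorem bvp [CompleteSpace E] (h : Loc g Γ x0 R C) (a0 : 0 ≤ a) (ha : 12 * C * a ≤ 1) {p q : E}
    (hp : p ∈ closedBall x0 (R - a)) (hq : ‖q - p‖ ≤ a / 2) :
    ∃ γ v, Geo Γ x0 R a γ v ∧ γ 0 = p ∧ γ 1 = q := by
  classical
  have := fun (w : E) (hw : w ∈ closedBall (0 : E) (3 / 4 * a)) =>
    ivp h a0 ha hp (w := w) (by simpa using hw)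
  choose! γ v H using this
  have hp' : p ∈ closedBall x0 R := closedBall_subset_closedBall (by linarith) hp
  set T : E → E := fun w => w + q - γ w 1 with hT
  have lip : ∀ w ∈ closedBall (0 : E) (3 / 4 * a), ∀ w' ∈ closedBall (0 : E) (3 / 4 * a),
      ‖T w - T w'‖ ≤ 1 / 3 * ‖w - w'‖ := fun w hw w' hw' => by
    obtain ⟨D, -, -, -, d2, d3⟩ := apriori h ha (H w' hw').1 (H w hw).1
      ((H w' hw').2.1.trans (H w hw).2.1.symm)
    rw [(H w hw).2.2, (H w' hw').2.2] at d2 d3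
    have : T w - T w' = -(γ w 1 - γ w' 1 - (w - w')) := by simp only [hT]; abel
    rw [this, norm_neg]; linarith
  have maps : MapsTo T (closedBall (0 : E) (3 / 4 * a)) (closedBall (0 : E) (3 / 4 * a)) :=
    fun w hw => by
      obtain ⟨D, -, -, -, d2, d3⟩ := apriori h ha (Geo.const hp' a0) (H w hw).1 (H w hw).2.1.symm
      rw [(H w hw).2.2, sub_zero] at d2 d3
      have : T w = (q - p) - (γ w 1 - p - w) := by simp only [hT]; abel
      rw [mem_closedBall_zero_iff] at hw ⊢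
      rw [this]
      have := norm_sub_le (q - p) (γ w 1 - p - w)
      linarith
  have hc : ContractingWith (1 / 3) (maps.restrict T _ _) := by
    refine ⟨by norm_num, LipschitzWith.of_dist_le_mul fun w w' => ?_⟩
    simpa [Subtype.dist_eq, dist_eq_norm] using lip w w.2 w' w'.2
  obtain ⟨w, hw, hfix, -⟩ := ContractingWith.exists_fixedPoint' isClosed_closedBall.isComplete maps
    hc (x := 0) (mem_closedBall_self (by positivity)) (edist_ne_top _ _)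
  refine ⟨γ w, v w, (H w hw).1, (H w hw).2.1, ?_⟩
  have : w + q - γ w 1 = w := hfix
  rw [sub_eq_iff_eq_add, add_right_inj] at this
  exact this.symm

end Pool.Agent.Lib.MP_c2693b_gt.Rm
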