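import Pool.Agent.Lib.MP_c2693b_gt.Ob.RA

/-! First variation and the approximate Jacobi inequality for two neighbouring geodesics. -/

open Set Topology Metric Filter

namespace Pool.Agent.Lib.MP_c2693b_gt.Rm

variable {E : Type} [NormedAddCommGroup E] [NormedSpace ℝ E]
variable {g : E → E →L[ℝ] E →L[ℝ] ℝ} {Γ : E → E →L[ℝ] E →L[ℝ] E} {x0 : E} {R C a : ℝ}

theorem gder (h : Loc g Γ x0 R C) {γ X Y : ℝ → E} {v X' Y' : E} {s : Set ℝ} {t : ℝ}
    (hm : γ t ∈ closedBall x0 R) (hγ : HasDerivWithinAt γ v s t) (hX : HasDerivWithinAt X X' s t)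
    (hY : HasDerivWithinAt Y Y' s t) :
    HasDerivWithinAt (fun t => g (γ t) (X t) (Y t))
      (g (γ t) (X' + Γ (γ t) v (X t)) (Y t) + g (γ t) (X t) (Y' + Γ (γ t) v (Y t))) s t := by
  have h1 := (h.bg.der _ hm).comp_hasDerivWithinAt t hγ
  have h2 := (h1.clm_apply hX).clm_apply hY
  refine HasDerivWithinAt.congr_deriv h2 ?_
  simp only [Function.comp_apply, add_apply, map_add, h.compat _ hm]
  ring

theorem Geo.energy (h : Loc g Γ x0 R C) {γ v : ℝ → E} (h1 : Geo Γ x0 R a γ v) {t : ℝ}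
    (ht : t ∈ Icc (0 : ℝ) 1) : g (γ t) (v t) (v t) = g (γ 0) (v 0) (v 0) := by
  have := mv1' (u := fun t => g (γ t) (v t) (v t)) (u' := fun _ => 0) (κ := 0)
    (fun t ht => by
      simpa using gder h (h1.mem t ht) (h1.d1 t ht) (h1.d2 t ht) (h1.d2 t ht))
    (fun _ _ => by simp) (s := 0) (by simp) ht
  simpa [sub_eq_zero] using this

theorem quad_tay {F : Type} [NormedAddCommGroup F] [NormedSpace ℝ F] {f : E → E →L[ℝ] E →L[ℝ] F}
    (h : Bd f x0 R C) (hs : ∀ z ∈ closedBall x0 R, ∀ u v, f z u v = f z v u) {z z' v v' : E}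
    {D : ℝ} (hz : z ∈ closedBall x0 R) (hz' : z' ∈ closedBall x0 R) (hv : ‖v‖ ≤ 1)
    (h1 : ‖z' - z‖ ≤ D) (h2 : ‖v' - v‖ ≤ D) :
    ‖f z' v' v' - f z v v - fderiv ℝ f z (z' - z) v v - (2 : ℝ) • f z v (v' - v)‖ ≤
      4 * C * D ^ 2 := by
  obtain ⟨u, rfl⟩ : ∃ u, v' = v + u := ⟨v' - v, by abel⟩
  rw [add_sub_cancel_left] at h2 ⊢
  have hC := h.nonneg hz
  have D0 : 0 ≤ D := (norm_nonneg _).trans h1
  have e : f z' (v + u) (v + u) - f z v v - fderiv ℝ f z (z' - z) v v - (2 : ℝ) • f z v u =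
      (f z' - f z - fderiv ℝ f z (z' - z)) v v + (2 : ℝ) • (f z' - f z) v u + f z' u u := by
    simp only [map_add, add_apply, sub_apply, hs z' hz' u v, two_smul]; abel
  have b1 : ‖(f z' - f z - fderiv ℝ f z (z' - z)) v v‖ ≤ C * D ^ 2 * 1 * 1 :=
    (ContinuousLinearMap.le_opNorm₂ _ _ _).trans (by
      gcongr; exact (h.tay z hz z' hz').trans (by gcongr))
  have b2 : ‖(f z' - f z) v u‖ ≤ C * D * 1 * D :=
    (ContinuousLinearMap.le_opNorm₂ _ _ _).trans (by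
      gcongr; exact (h.lip z hz z' hz').trans (by gcongr))
  have b3 : ‖f z' u u‖ ≤ C * D * D :=
    (ContinuousLinearMap.le_opNorm₂ _ _ _).trans (by gcongr; exact h.n0 z' hz')
  rw [e]
  refine norm_add₃_le.trans ?_
  rw [norm_smul, Real.norm_ofNat]
  linarith

section pair

variable {γ1 v1 γ2 v2 : ℝ → E} {D : ℝ}

/-- First variation of the energy, with a quadratic error. -/
theorem first_var (h : Loc g Γ x0 R C) (a1 : a ≤ 1) (h1 : Geo Γ x0 R a γ1 v1)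
    (h2 : Geo Γ x0 R a γ2 v2) (h0 : γ1 0 = γ2 0)
    (hD : ∀ t ∈ Icc (0 : ℝ) 1, ‖v2 t - v1 t‖ ≤ D ∧ ‖γ2 t - γ1 t‖ ≤ D * t) :
    |g (γ2 0) (v2 0) (v2 0) - g (γ1 0) (v1 0) (v1 0) - 2 * g (γ1 1) (v1 1) (γ2 1 - γ1 1)| ≤
      4 * C * D ^ 2 := by
  have D0 : 0 ≤ D := (norm_nonneg _).trans (hD 0 (by simp)).1
  set Δ := g (γ2 0) (v2 0) (v2 0) - g (γ1 0) (v1 0) (v1 0) with hΔ
  have := mv1' (u := fun t => t * Δ - 2 * g (γ1 t) (v1 t) (γ2 t - γ1 t))
    (u' := fun t => Δ - 2 * g (γ1 t) (v1 t) (v2 t - v1 t + Γ (γ1 t) (v1 t) (γ2 t - γ1 t)))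
    (κ := 4 * C * D ^ 2)
    (fun t ht => by
      have e := gder h (h1.mem t ht) (h1.d1 t ht) (h1.d2 t ht) ((h2.d1 t ht).sub (h1.d1 t ht))
      have e2 := ((hasDerivWithinAt_id t (Icc (0 : ℝ) 1)).mul_const Δ).sub (e.const_mul 2)
      refine HasDerivWithinAt.congr_deriv e2 ?_
      simp)
    (fun t ht => by
      have e := quad_tay h.bg h.symm (h1.mem t ht) (h2.mem t ht) ((h1.spd t ht).trans a1)
        ((hD t ht).2.trans (by nlinarith [ht.2])) (hD t ht).1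
      convert e using 2
      rw [hΔ, ← h1.energy h ht, ← h2.energy h ht, h.compat _ (h1.mem t ht),
        h.symm _ (h1.mem t ht) (Γ _ _ _), h.symmΓ _ (h1.mem t ht) (γ2 t - γ1 t), map_add,
        smul_eq_mul]
      ring)
    (s := 0) (t := 1) (by simp) (by simp)
  simpa [h0] using this

theorem mono_of {f f' : ℝ → ℝ} (h : ∀ t ∈ Icc (0 : ℝ) 1, HasDerivWithinAt f (f' t) (Icc 0 1) t)
    (hp : ∀ t ∈ Icc (0 : ℝ) 1, 0 ≤ f' t) : MonotoneOn f (Icc 0 1) :=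
  monotoneOn_of_hasDerivWithinAt_nonneg (convex_Icc 0 1) (fun t ht => (h t ht).continuousWithinAt)
    (fun x hx => (h x (interior_subset hx)).mono interior_subset)
    (fun x hx => hp x (interior_subset hx))

theorem Loc.nonneg (h : Loc g Γ x0 R C) {z : E} (hz : z ∈ closedBall x0 R) (u : E) :
    0 ≤ g z u u := by
  have h1 := h.low z hz u
  have h2 := h.hC
  by_contra hn
  nlinarith [sq_nonneg ‖u‖]

/-- The approximate Jacobi inequality at a fixed regularisation `η`. -/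
theorem jac_eta (h : Loc g Γ x0 R C) (a1 : a ≤ 1) (h1 : Geo Γ x0 R a γ1 v1)
    (h2 : Geo Γ x0 R a γ2 v2) (h0 : γ1 0 = γ2 0)
    (hD : ∀ t ∈ Icc (0 : ℝ) 1, ‖v2 t - v1 t‖ ≤ D ∧ ‖γ2 t - γ1 t‖ ≤ D * t) {η : ℝ} (hη : 0 < η)
    {s : ℝ} (hs : s ∈ Icc (0 : ℝ) 1) :
    g (γ1 s) (γ2 s - γ1 s) (γ2 s - γ1 s) / (s + η) ^ 2 ≤
      g (γ1 1) (γ2 1 - γ1 1) (γ2 1 - γ1 1) + 4 * C ^ 2 * D ^ 3 := by
  have D0 : 0 ≤ D := (norm_nonneg _).trans (hD 0 (by simp)).1
  have hC := h.hC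
  set δ : ℝ → E := fun t => γ2 t - γ1 t with hδ
  set W : ℝ → E := fun t => v2 t - v1 t + Γ (γ1 t) (δ t) (v1 t) with hW
  set K := 2 * C ^ 2 * D ^ 3 with hK
  have K0 : 0 ≤ K := by positivity
  have dδ : ∀ t ∈ Icc (0 : ℝ) 1, HasDerivWithinAt δ (v2 t - v1 t) (Icc 0 1) t :=
    fun t ht => (h2.d1 t ht).sub (h1.d1 t ht)
  have cov : ∀ t ∈ Icc (0 : ℝ) 1, v2 t - v1 t + Γ (γ1 t) (v1 t) (δ t) = W t := fun t ht => by
    simp only [hW, h.symmΓ _ (h1.mem t ht) (v1 t)]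
  have du : ∀ t ∈ Icc (0 : ℝ) 1, HasDerivWithinAt (fun t => g (γ1 t) (δ t) (δ t))
      (2 * g (γ1 t) (W t) (δ t)) (Icc 0 1) t := fun t ht => by
    have e := gder h (h1.mem t ht) (h1.d1 t ht) (dδ t ht) (dδ t ht)
    rw [cov t ht, h.symm _ (h1.mem t ht) (δ t) (W t), ← two_mul] at e
    exact e
  have dw : ∀ t ∈ Icc (0 : ℝ) 1, ∃ y, -(2 * K * t) ≤ y ∧
      HasDerivWithinAt (fun t => g (γ1 t) (W t) (δ t)) (y + g (γ1 t) (W t) (W t)) (Icc 0 1) t :=
    fun t ht => by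
      have m := h1.mem t ht
      have e1 := ((h.bΓ.der _ m).comp_hasDerivWithinAt t (h1.d1 t ht)).clm_apply (dδ t ht)
      have e2 := ((h2.d2 t ht).sub (h1.d2 t ht)).add (e1.clm_apply (h1.d2 t ht))
      have e3 := gder h m (h1.d1 t ht) (X := W) e2 (dδ t ht)
      rw [cov t ht] at e3
      refine ⟨_, ?_, e3⟩
      have q := quad_tay h.bΓ h.symmΓ m (h2.mem t ht) ((h1.spd t ht).trans a1)
        ((hD t ht).2.trans (by nlinarith [ht.2])) (hD t ht).1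
      have c := h.curv _ m (δ t) (v1 t)
      have b := ((g (γ1 t)).le_opNorm₂ _ (δ t)).trans
        (mul_le_mul (mul_le_mul (h.bg.n0 _ m) q (norm_nonneg _) (by linarith)) (hD t ht).2
          (norm_nonneg _) (by positivity))
      rw [Real.norm_eq_abs, abs_le] at b
      have b2 := b.2
      have s1 := h.symmΓ _ m (v2 t - v1 t) (v1 t)
      simp only [hW, Function.comp_apply, add_apply, s1]
      change _ ≤ g (γ1 t) _ (δ t)
      change g (γ1 t) (_ - _ - fderiv ℝ Γ (γ1 t) (δ t) (v1 t) (v1 t) - _) (δ t) ≤ _ at b2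
      generalize δ t = d at *
      generalize v2 t - v1 t = u at *
      simp only [map_add, map_sub, map_neg, map_smul, add_apply, sub_apply, neg_apply, smul_apply,
        smul_eq_mul] at b2 c ⊢
      rw [hK]; linarith
  choose! y hy using dw
  have p : ∀ t ∈ Icc (0 : ℝ) 1, 0 < t + η := fun t ht => by linarith [ht.1]
  have dl : ∀ t, HasDerivWithinAt (fun t : ℝ => t + η) 1 (Icc 0 1) t :=
    fun t => (hasDerivWithinAt_id t _).add_const η
  have m1 := mono_of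
    (f := fun t => g (γ1 t) (W t) (δ t) - g (γ1 t) (δ t) (δ t) / (t + η) + K * t ^ 2)
    (f' := fun t => y t + 2 * K * t +
      g (γ1 t) (W t - (t + η)⁻¹ • δ t) (W t - (t + η)⁻¹ • δ t))
    (fun t ht => by
      have e := ((hy t ht).2.sub ((du t ht).div (dl t) (p t ht).ne')).add
        (((hasDerivWithinAt_id t (Icc (0 : ℝ) 1)).pow 2).const_mul K)
      refine HasDerivWithinAt.congr_deriv e ?_
      have := (p t ht).ne'
      simp only [map_sub, map_smul, sub_apply, smul_apply, smul_eq_mul,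
        h.symm _ (h1.mem t ht) (δ t) (W t), id]
      field_simp
      ring)
    (fun t ht => add_nonneg (by linarith [(hy t ht).1]) (h.nonneg (h1.mem t ht) _))
  have k0 : ∀ t ∈ Icc (0 : ℝ) 1,
      0 ≤ g (γ1 t) (W t) (δ t) - g (γ1 t) (δ t) (δ t) / (t + η) + K * t ^ 2 := fun t ht => by
    have := m1 (show (0 : ℝ) ∈ Icc (0 : ℝ) 1 by simp) ht ht.1
    simpa [hδ, h0] using this
  have m2 := mono_of (f := fun t => g (γ1 t) (δ t) (δ t) / (t + η) ^ 2 + 2 * K * t)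
    (f' := fun t => 2 * (g (γ1 t) (W t) (δ t) - g (γ1 t) (δ t) (δ t) / (t + η) +
      K * (t + η) ^ 2) / (t + η) ^ 2)
    (fun t ht => by
      have e := ((du t ht).div ((dl t).pow 2) (pow_pos (p t ht) 2).ne').add
        ((hasDerivWithinAt_id t (Icc (0 : ℝ) 1)).const_mul (2 * K))
      refine HasDerivWithinAt.congr_deriv e ?_
      have := (p t ht).ne'
      simp only [Pi.pow_apply]
      field_simp
      ring)
    (fun t ht => by
      have := k0 t ht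
      have e : K * t ^ 2 ≤ K * (t + η) ^ 2 := by gcongr; exact ht.1; linarith
      exact div_nonneg (by linarith) (by positivity))
  have f1 := m2 hs (show (1 : ℝ) ∈ Icc (0 : ℝ) 1 by simp) hs.2
  have f2 : g (γ1 1) (δ 1) (δ 1) / (1 + η) ^ 2 ≤ g (γ1 1) (δ 1) (δ 1) :=
    div_le_self (h.nonneg (h1.mem 1 (by simp)) _) (by nlinarith)
  have f3 : 0 ≤ 2 * K * s := by have := hs.1; positivity
  simp only at f1
  change g (γ1 s) (δ s) (δ s) / (s + η) ^ 2 ≤ g (γ1 1) (δ 1) (δ 1) + _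
  linarith

/-- Geodesics from a common point spread at least linearly, up to a cubic error. -/
theorem jacobi (h : Loc g Γ x0 R C) (a1 : a ≤ 1) (h1 : Geo Γ x0 R a γ1 v1)
    (h2 : Geo Γ x0 R a γ2 v2) (h0 : γ1 0 = γ2 0)
    (hD : ∀ t ∈ Icc (0 : ℝ) 1, ‖v2 t - v1 t‖ ≤ D ∧ ‖γ2 t - γ1 t‖ ≤ D * t) :
    g (γ1 0) (v2 0 - v1 0) (v2 0 - v1 0) ≤
      g (γ1 1) (γ2 1 - γ1 1) (γ2 1 - γ1 1) + 4 * C ^ 2 * D ^ 3 := by
  have z0 : (0 : ℝ) ∈ Icc (0 : ℝ) 1 := by simp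
  have e : Icc (0 : ℝ) 1 \ {0} = Ioc 0 1 := Icc_sdiff_left
  have t1 := hasDerivWithinAt_iff_tendsto_slope.1 ((h2.d1 0 z0).sub (h1.d1 0 z0))
  rw [e] at t1
  have t2 : Tendsto (fun s => g (γ1 s)) (𝓝[Ioc 0 1] 0) (𝓝 (g (γ1 0))) :=
    (h.bg.der _ (h1.mem 0 z0)).continuousAt.tendsto.comp
      ((h1.d1 0 z0).continuousWithinAt.mono Ioc_subset_Icc_self)
  have t3 : Tendsto (fun s : ℝ => (1 + s) ^ 2) (𝓝[Ioc 0 1] 0) (𝓝 ((1 + 0) ^ 2)) :=
    (Continuous.tendsto (by fun_prop) _).mono_left nhdsWithin_le_nhds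
  have t4 : Continuous fun x : (E →L[ℝ] E →L[ℝ] ℝ) × E => x.1 x.2 x.2 := by fun_prop
  have t5 := ((t4.tendsto _).comp (t2.prodMk_nhds t1)).div t3 (by norm_num)
  have : (𝓝[Ioc (0 : ℝ) 1] 0).NeBot := left_nhdsWithin_Ioc_neBot one_pos
  simp only [add_zero, one_pow, div_one] at t5
  refine le_of_tendsto t5 (eventually_nhdsWithin_of_forall fun s hs => ?_)
  have := jac_eta h a1 h1 h2 h0 hD (η := s * s) (mul_pos hs.1 hs.1) (Ioc_subset_Icc_self hs)
  refine le_trans (le_of_eq ?_) this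
  have s0 := hs.1.ne'
  have s1 : 1 + s ≠ 0 := by linarith [hs.1]
  have s2 : s + s * s = s * (1 + s) := by ring
  simp only [Pi.div_apply, Function.comp_apply, slope_def_module, Pi.sub_apply, h0, sub_self,
    sub_zero, map_smul, smul_apply, smul_eq_mul, s2]
  field_simp

end pair

end Pool.Agent.Lib.MP_c2693b_gt.Rm
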