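import Pool.Agent.Lib.MP_c2693b_gt.Ob.Defs

open Set Topology Metric

namespace Pool.Agent.Lib.MP_c2693b_gt

variable {E : Type} [NormedAddCommGroup E] [NormedSpace ℝ E]

/-- A metric `g` of non-positive curvature with Levi-Civita connection `Γ` on the open set `U`. -/
structure ChartMet (U : Set E) (g : E → E →L[ℝ] E →L[ℝ] ℝ) (Γ : E → E →L[ℝ] E →L[ℝ] E) :
    Prop where
  op : IsOpen U
  cg : ContDiffOn ℝ 2 g U
  cΓ : ContDiffOn ℝ 2 Γ U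
  symm : ∀ z ∈ U, ∀ u v, g z u v = g z v u
  pos : ∀ z ∈ U, ∀ u, u ≠ 0 → 0 < g z u u
  symmΓ : ∀ z ∈ U, ∀ u v, Γ z u v = Γ z v u
  compat : ∀ z ∈ U, ∀ u v w, fderiv ℝ g z u v w = g z (Γ z u v) w + g z v (Γ z u w)
  curv : ∀ z ∈ U, ∀ u v,
    g z (fderiv ℝ Γ z u v v - fderiv ℝ Γ z v u v + Γ z u (Γ z v v) - Γ z v (Γ z u v)) u ≤ 0

/-- Short geodesics `γ p q` (velocity `v p q`, squared length `en p q`) between the points of the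
ball of radius `r` about `x0`. -/
structure ChartGeo (U : Set E) (g : E → E →L[ℝ] E →L[ℝ] ℝ) (x0 : E) (r c : ℝ)
    (γ v : E → E → ℝ → E) (en : E → E → ℝ) : Prop where
  rpos : 0 < r
  cpos : 0 < c
  sub : closedBall x0 (4 * r) ⊆ U
  zero : ∀ p ∈ ball x0 r, ∀ q ∈ ball x0 r, γ p q 0 = p
  one : ∀ p ∈ ball x0 r, ∀ q ∈ ball x0 r, γ p q 1 = q
  der : ∀ p ∈ ball x0 r, ∀ q ∈ ball x0 r, ∀ t ∈ Icc (0 : ℝ) 1,
    HasDerivWithinAt (γ p q) (v p q t) (Icc 0 1) t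
  near : ∀ p ∈ ball x0 r, ∀ q ∈ ball x0 r, ∀ t ∈ Icc (0 : ℝ) 1,
    ‖γ p q t - p‖ ≤ 4 / 3 * ‖q - p‖
  speed : ∀ p ∈ ball x0 r, ∀ q ∈ ball x0 r, ∀ t ∈ Icc (0 : ℝ) 1,
    g (γ p q t) (v p q t) (v p q t) = en p q
  var : ∀ p ∈ ball x0 r, ∀ q ∈ ball x0 r, HasFDerivAt (en p) ((2 : ℝ) • g q (v p q 1)) q
  low : ∀ p ∈ ball x0 r, ∀ q ∈ ball x0 r, ‖q - p‖ ^ 2 ≤ c * en p q
  up : ∀ p ∈ ball x0 r, ∀ q ∈ ball x0 r, en p q ≤ c * ‖q - p‖ ^ 2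
  rev : ∀ p ∈ ball x0 r, ∀ q ∈ ball x0 r, v q p 0 = -v p q 1
  con : ∀ m ∈ ball x0 r, ∀ a ∈ ball x0 (r / 4), ∀ b ∈ ball x0 (r / 4),
    g m (v m a 0 - v m b 0) (v m a 0 - v m b 0) ≤ en a b

/-- Chart metrics for the preferred charts of `N`, compatible with the changes of chart. -/
structure AtlasMet {N : Type} [TopologicalSpace N] [ChartedSpace E N]
    (g : N → E → E →L[ℝ] E →L[ℝ] ℝ) (Γ : N → E → E →L[ℝ] E →L[ℝ] E) : Prop where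
  met : ∀ a, ChartMet (chartAt E a).target (g a) (Γ a)
  chg : ∀ a b x, x ∈ (chartAt E a).source → x ∈ (chartAt E b).source → ∃ A : E →L[ℝ] E,
    HasFDerivAt (chartAt E a ∘ (chartAt E b).symm) A (chartAt E b x) ∧
      ∀ u, g b (chartAt E b x) u u = g a (chartAt E a x) (A u) (A u)

end Pool.Agent.Lib.MP_c2693b_gt
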